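import Mathlib

/-!
Combinatorial core: a supermodular set function invariant under partial injections,
compared with partitions (principal partition argument).
-/

namespace Pool.Agent.Lib.MP_eee65c_al

open Finset

section Core

set_option linter.unusedSectionVars false

variable {C : Type*} [Fintype C] [DecidableEq C]

/-- Number of colour classes of `c` on `S`. -/
def nc {β : Type*} [DecidableEq β] (S : Finset C) (c : C → β) : ℕ := (S.image c).card

/-- Sum of `δ` over the colour classes of `c` on `S`. -/
def sd (δ : Finset C → ℤ) {β : Type*} [DecidableEq β] (S : Finset C) (c : C → β) : ℤ :=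
  ∑ b ∈ S.image c, δ (S.filter (fun x => c x = b))

/-- Weighted value of a colouring. -/
def val (δ : Finset C → ℤ) (N t : ℤ) {β : Type*} [DecidableEq β] (S : Finset C) (c : C → β) : ℤ :=
  N * sd δ S c + t * (nc S c : ℤ)

/-- Supermodular, normalised to vanish on the empty set and on singletons. -/
structure IsNull (δ : Finset C → ℤ) : Prop where
  empty : δ ∅ = 0
  single : ∀ x, δ {x} = 0
  super : ∀ A B, δ A + δ B ≤ δ (A ∪ B) + δ (A ∩ B)

variable {δ : Finset C → ℤ}

lemma IsNull.mono (h : IsNull δ) {A B : Finset C} (hAB : A ⊆ B) : δ A ≤ δ B := by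
  classical
  have key : ∀ D : Finset C, δ A ≤ δ (A ∪ D) := by
    intro D
    induction D using Finset.induction_on with
    | empty => simp
    | insert x D hx ih =>
      by_cases hxA : x ∈ A ∪ D
      · have : A ∪ insert x D = A ∪ D := by
          ext y; simp only [mem_union, mem_insert] at *
          constructor
          · rintro (h1 | h1 | h1)
            · exact Or.inl h1
            · rw [h1]; exact hxA
            · exact Or.inr h1
          · rintro (h1 | h1)
            · exact Or.inl h1
            · exact Or.inr (Or.inr h1)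
        rw [this]; exact ih
      · have h1 := h.super (A ∪ D) {x}
        have h2 : (A ∪ D) ∩ {x} = ∅ := by
          ext y; simp only [mem_inter, mem_singleton, notMem_empty, iff_false, not_and]
          intro hy hyx; exact hxA (hyx ▸ hy)
        have h3 : A ∪ insert x D = (A ∪ D) ∪ {x} := by
          ext y; simp only [mem_union, mem_insert, mem_singleton]; tauto
        rw [h2, h.empty, h.single] at h1
        rw [h3]; linarith
  have := key B
  rwa [Finset.union_eq_right.mpr hAB] at this

lemma IsNull.nonneg (h : IsNull δ) (A : Finset C) : 0 ≤ δ A := by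
  have := h.mono (Finset.empty_subset A)
  rwa [h.empty] at this

/-- Multi-way supermodularity. -/
lemma IsNull.multi (h : IsNull δ) {β : Type*} [DecidableEq β] (c : C → β) {Y S : Finset C}
    (hYS : Y ⊆ S) (Q : Finset β) :
    δ (Y.filter (fun x => c x ∈ Q)) - ∑ b ∈ Q, δ (Y.filter (fun x => c x = b)) ≤
      δ (S.filter (fun x => c x ∈ Q)) - ∑ b ∈ Q, δ (S.filter (fun x => c x = b)) := by
  induction Q using Finset.induction_on with
  | empty => simp [h.empty]
  | insert b Q hb ih =>
    rw [sum_insert hb, sum_insert hb]
    have e1 : ∀ T : Finset C, T.filter (fun x => c x ∈ insert b Q) =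
        T.filter (fun x => c x ∈ Q) ∪ T.filter (fun x => c x = b) := by
      intro T; ext x; simp only [mem_filter, mem_insert, mem_union]; tauto
    have s1 := h.super (S.filter (fun x => c x ∈ Q))
      (Y.filter (fun x => c x ∈ Q) ∪ S.filter (fun x => c x = b))
    have s2 := h.super (S.filter (fun x => c x = b))
      (Y.filter (fun x => c x ∈ Q) ∪ Y.filter (fun x => c x = b))
    have i1 : S.filter (fun x => c x ∈ Q) ∪
        (Y.filter (fun x => c x ∈ Q) ∪ S.filter (fun x => c x = b)) =
        S.filter (fun x => c x ∈ Q) ∪ S.filter (fun x => c x = b) := by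
      ext x; simp only [mem_filter, mem_union]
      constructor
      · rintro (h1 | h1 | h1)
        · exact Or.inl h1
        · exact Or.inl ⟨hYS h1.1, h1.2⟩
        · exact Or.inr h1
      · rintro (h1 | h1)
        · exact Or.inl h1
        · exact Or.inr (Or.inr h1)
    have i2 : S.filter (fun x => c x ∈ Q) ∩
        (Y.filter (fun x => c x ∈ Q) ∪ S.filter (fun x => c x = b)) =
        Y.filter (fun x => c x ∈ Q) := by
      ext x; simp only [mem_filter, mem_union, mem_inter]
      constructor
      · rintro ⟨⟨h1, h2⟩, h3 | h3⟩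
        · exact h3
        · exact absurd (h3.2 ▸ h2) hb
      · rintro h1
        exact ⟨⟨hYS h1.1, h1.2⟩, Or.inl h1⟩
    have i3 : S.filter (fun x => c x = b) ∪
        (Y.filter (fun x => c x ∈ Q) ∪ Y.filter (fun x => c x = b)) =
        Y.filter (fun x => c x ∈ Q) ∪ S.filter (fun x => c x = b) := by
      ext x; simp only [mem_filter, mem_union]
      constructor
      · rintro (h1 | h1 | h1)
        · exact Or.inr h1
        · exact Or.inl h1
        · exact Or.inr ⟨hYS h1.1, h1.2⟩
      · rintro (h1 | h1)
        · exact Or.inr (Or.inl h1)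
        · exact Or.inl h1
    have i4 : S.filter (fun x => c x = b) ∩
        (Y.filter (fun x => c x ∈ Q) ∪ Y.filter (fun x => c x = b)) =
        Y.filter (fun x => c x = b) := by
      ext x; simp only [mem_filter, mem_union, mem_inter]
      constructor
      · rintro ⟨⟨h1, h2⟩, h3 | h3⟩
        · exact absurd (h2 ▸ h3.2) hb
        · exact h3
      · rintro h1
        exact ⟨⟨hYS h1.1, h1.2⟩, Or.inr h1⟩
    rw [i1, i2] at s1
    rw [i3, i4] at s2
    rw [e1 Y, e1 S]
    linarith

lemma IsNull.sd_le (h : IsNull δ) {β : Type*} [DecidableEq β] (S : Finset C) (c : C → β) :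
    sd δ S c ≤ δ S := by
  have := h.multi c (Finset.empty_subset S) (S.image c)
  simp only [filter_empty, h.empty, sum_const_zero, sub_zero] at this
  have e : S.filter (fun x => c x ∈ S.image c) = S := by
    apply filter_true_of_mem
    intro x hx; exact mem_image_of_mem c hx
  rw [e] at this
  unfold sd; linarith

lemma relabel [Nonempty C] {β : Type*} [DecidableEq β] (c : C → β) :
    ∃ c' : C → C, ∀ S : Finset C, nc S c' = nc S c ∧ sd δ S c' = sd δ S c := by
  classical
  set g : β → C := Function.invFun c with hg
  have hgc : ∀ x, c (g (c x)) = c x := fun x => Function.invFun_eq ⟨x, rfl⟩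
  refine ⟨fun x => g (c x), fun S => ?_⟩
  have him : S.image (fun x => g (c x)) = (S.image c).image g := by
    rw [image_image]; rfl
  have hinj : Set.InjOn g (S.image c : Finset β) := by
    intro b hb b' hb' hbb
    simp only [coe_image, Set.mem_image] at hb hb'
    obtain ⟨x, -, rfl⟩ := hb
    obtain ⟨y, -, rfl⟩ := hb'
    rw [← hgc x, ← hgc y, hbb]
  constructor
  · unfold nc; rw [him, card_image_of_injOn hinj]
  · unfold sd; rw [him, sum_image hinj]
    apply sum_congr rfl
    intro b hb
    congr 1
    apply filter_congr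
    intro x hx
    constructor
    · intro hh
      exact hinj (mem_coe.mpr (mem_image_of_mem c hx)) (mem_coe.mpr hb) hh
    · intro hh
      change g (c x) = g b
      rw [hh]

lemma relabel_val [Nonempty C] {β : Type*} [DecidableEq β] (c : C → β) :
    ∃ c' : C → C, ∀ (S : Finset C), nc S c' = nc S c ∧ ∀ N t : ℤ, val δ N t S c' = val δ N t S c := by
  obtain ⟨c', hc'⟩ := relabel (δ := δ) c
  refine ⟨c', fun S => ⟨(hc' S).1, fun N t => ?_⟩⟩
  unfold val; rw [(hc' S).1, (hc' S).2]

/-- `c` is an optimal colouring of `S` (among all colourings with any colours in `C`). -/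
def IsOpt (δ : Finset C → ℤ) (N t : ℤ) (S : Finset C) (c : C → C) : Prop :=
  ∀ c' : C → C, val δ N t S c' ≤ val δ N t S c

lemma exists_opt (δ : Finset C → ℤ) (N t : ℤ) (S : Finset C) : ∃ c : C → C, IsOpt δ N t S c := by
  obtain ⟨c, -, hc⟩ := exists_max_image (univ : Finset (C → C)) (fun c => val δ N t S c)
    ⟨id, mem_univ _⟩
  exact ⟨c, fun c' => hc c' (mem_univ _)⟩

lemma exists_coarse (δ : Finset C → ℤ) (N t : ℤ) (S : Finset C) :
    ∃ c : C → C, IsOpt δ N t S c ∧ ∀ c' : C → C, IsOpt δ N t S c' → nc S c ≤ nc S c' := by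
  classical
  obtain ⟨c0, h0⟩ := exists_opt δ N t S
  obtain ⟨c, hc1, hc2⟩ := exists_min_image ((univ : Finset (C → C)).filter (fun c => IsOpt δ N t S c))
    (fun c => nc S c) ⟨c0, by simp [h0]⟩
  refine ⟨c, (mem_filter.mp hc1).2, fun c' hc' => hc2 c' (mem_filter.mpr ⟨mem_univ _, hc'⟩)⟩

/-- Splitting one block of a colouring `π` of `S` along another colouring `c`. -/
lemma split_block (S : Finset C) (π c : C → C) {a : C} (ha : a ∈ S.image π) :
    nc S (fun z => if π z = a then (Sum.inr (c z) : C ⊕ C) else Sum.inl (π z)) + 1 =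
      nc S π + ((S.filter (fun z => π z = a)).image c).card ∧
    sd δ S (fun z => if π z = a then (Sum.inr (c z) : C ⊕ C) else Sum.inl (π z)) +
      δ (S.filter (fun z => π z = a)) = sd δ S π +
      ∑ b ∈ (S.filter (fun z => π z = a)).image c,
        δ ((S.filter (fun z => π z = a)).filter (fun x => c x = b)) := by
  classical
  set Y := S.filter (fun z => π z = a) with hY
  set p : C → C ⊕ C := fun z => if π z = a then (Sum.inr (c z) : C ⊕ C) else Sum.inl (π z) with hp
  have him : S.image p = ((S.image π).erase a).image Sum.inl ∪ (Y.image c).image Sum.inr := by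
    ext u
    simp only [mem_image, mem_union, mem_erase, hY, mem_filter, hp]
    constructor
    · rintro ⟨z, hz, rfl⟩
      by_cases hza : π z = a
      · right; exact ⟨c z, ⟨z, ⟨hz, hza⟩, rfl⟩, by simp [hza]⟩
      · left; exact ⟨π z, ⟨hza, z, hz, rfl⟩, by simp [hza]⟩
    · rintro (⟨b, ⟨hba, z, hz, rfl⟩, rfl⟩ | ⟨b, ⟨z, ⟨hz, hza⟩, rfl⟩, rfl⟩)
      · exact ⟨z, hz, by simp [hba]⟩
      · exact ⟨z, hz, by simp [hza]⟩
  have hdisj : Disjoint (((S.image π).erase a).image (Sum.inl : C → C ⊕ C))
      ((Y.image c).image Sum.inr) := by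
    rw [disjoint_left]
    intro u hu hu'
    simp only [mem_image] at hu hu'
    obtain ⟨b, -, rfl⟩ := hu
    obtain ⟨b', -, hb'⟩ := hu'
    exact absurd hb' (by simp)
  constructor
  · unfold nc
    rw [him, card_union_of_disjoint hdisj, card_image_of_injective _ Sum.inl_injective,
      card_image_of_injective _ Sum.inr_injective, card_erase_of_mem ha]
    have : 0 < (S.image π).card := card_pos.mpr ⟨a, ha⟩
    omega
  · unfold sd
    rw [him, sum_union hdisj, sum_image (fun x _ y _ hxy => Sum.inl_injective hxy),
      sum_image (fun x _ y _ hxy => Sum.inr_injective hxy)]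
    have h1 : ∑ x ∈ (S.image π).erase a, δ (S.filter (fun z => p z = Sum.inl x)) =
        ∑ x ∈ (S.image π).erase a, δ (S.filter (fun z => π z = x)) := by
      apply sum_congr rfl
      intro x hx
      congr 1
      apply filter_congr
      intro z hz
      simp only [hp]
      by_cases hza : π z = a
      · simp only [hza, if_true]
        constructor
        · intro hh; exact absurd hh (by simp)
        · intro hh; exact absurd hh.symm (mem_erase.mp hx).1
      · simp only [hza, if_false, Sum.inl.injEq]
    have h2 : ∑ x ∈ Y.image c, δ (S.filter (fun z => p z = Sum.inr x)) =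
        ∑ b ∈ Y.image c, δ (Y.filter (fun x => c x = b)) := by
      apply sum_congr rfl
      intro x hx
      congr 1
      rw [hY, filter_filter]
      apply filter_congr
      intro z hz
      simp only [hp]
      by_cases hza : π z = a
      · simp only [hza, if_true, Sum.inr.injEq, true_and]
      · simp [hza]
    rw [h1, h2]
    have h3 := add_sum_erase (S.image π) (fun b => δ (S.filter (fun z => π z = b))) ha
    rw [← h3]
    ring

/-- Merging a set `Q` of colours of `c`. -/
lemma merge_blocks (S : Finset C) (c : C → C) (Q : Finset C) (hQ : Q ⊆ S.image c) {q : C}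
    (hq : q ∈ Q) :
    nc S (fun z => if c z ∈ Q then q else c z) + Q.card = nc S c + 1 ∧
    sd δ S (fun z => if c z ∈ Q then q else c z) + ∑ b ∈ Q, δ (S.filter (fun x => c x = b)) =
      sd δ S c + δ (S.filter (fun x => c x ∈ Q)) := by
  classical
  set p : C → C := fun z => if c z ∈ Q then q else c z with hp
  have him : S.image p = insert q ((S.image c) \ Q) := by
    ext u
    simp only [mem_image, mem_insert, mem_sdiff, hp]
    constructor
    · rintro ⟨z, hz, rfl⟩
      by_cases hzQ : c z ∈ Q
      · left; simp [hzQ]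
      · right; simp only [hzQ, if_false, not_false_eq_true, and_true]; exact ⟨z, hz, rfl⟩
    · rintro (rfl | ⟨⟨z, hz, rfl⟩, hzQ⟩)
      · obtain ⟨z, hz, hzq⟩ := mem_image.mp (hQ hq)
        exact ⟨z, hz, by simp [hzq, hq]⟩
      · exact ⟨z, hz, by simp [hzQ]⟩
  have hqn : q ∉ (S.image c) \ Q := by simp [hq]
  constructor
  · unfold nc
    rw [him, card_insert_of_notMem hqn, card_sdiff_of_subset hQ]
    have := card_le_card hQ
    omega
  · unfold sd
    rw [him, sum_insert hqn]
    have h1 : S.filter (fun z => p z = q) = S.filter (fun x => c x ∈ Q) := by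
      apply filter_congr
      intro z hz
      simp only [hp]
      by_cases hzQ : c z ∈ Q
      · simp [hzQ]
      · simp only [hzQ, if_false, iff_false]
        intro hh; exact hzQ (hh ▸ hq)
    have h2 : ∑ x ∈ (S.image c) \ Q, δ (S.filter (fun z => p z = x)) =
        ∑ x ∈ (S.image c) \ Q, δ (S.filter (fun z => c z = x)) := by
      apply sum_congr rfl
      intro x hx
      congr 1
      apply filter_congr
      intro z hz
      simp only [hp]
      by_cases hzQ : c z ∈ Q
      · simp only [hzQ, if_true]
        constructor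
        · intro hh; rw [← hh] at hx; exact absurd hq (mem_sdiff.mp hx).2
        · intro hh; rw [hh] at hzQ; exact absurd hzQ (mem_sdiff.mp hx).2
      · simp [hzQ]
    rw [h1, h2]
    have h3 := sum_sdiff (f := fun b => δ (S.filter (fun x => c x = b))) hQ
    linarith

/-- Refinement: an optimal colouring of a subset refines the coarsest optimal colouring. -/
lemma refine_opt [Nonempty C] (h : IsNull δ) {N t : ℤ} (hN : 0 ≤ N) {c : C → C}
    (hc : IsOpt δ N t univ c) (hc' : ∀ c' : C → C, IsOpt δ N t univ c' → nc univ c ≤ nc univ c')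
    {S : Finset C} {π : C → C} (hπ : IsOpt δ N t S π) {x y : C} (hx : x ∈ S) (hy : y ∈ S)
    (hxy : π x = π y) : c x = c y := by
  classical
  by_contra hne
  set a := π x with ha
  have haS : a ∈ S.image π := mem_image_of_mem π hx
  set Y := S.filter (fun z => π z = a) with hY
  set Q := Y.image c with hQ
  have hxQ : c x ∈ Q := mem_image_of_mem c (mem_filter.mpr ⟨hx, rfl⟩)
  have hyQ : c y ∈ Q := mem_image_of_mem c (mem_filter.mpr ⟨hy, hxy.symm⟩)
  have hQ2 : 2 ≤ Q.card := by
    have : ({c x, c y} : Finset C) ⊆ Q := by
      intro u hu; simp only [mem_insert, mem_singleton] at hu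
      rcases hu with rfl | rfl <;> assumption
    calc 2 = ({c x, c y} : Finset C).card := (card_pair hne).symm
      _ ≤ Q.card := card_le_card this
  obtain ⟨s1, s2⟩ := split_block (δ := δ) S π c haS
  obtain ⟨π', hπ'⟩ := relabel_val (δ := δ)
    (fun z => if π z = a then (Sum.inr (c z) : C ⊕ C) else Sum.inl (π z))
  have o1 := hπ π'
  rw [(hπ' S).2] at o1
  obtain ⟨m1, m2⟩ := merge_blocks (δ := δ) univ c Q
    (by intro u hu; obtain ⟨z, hz, rfl⟩ := mem_image.mp hu; exact mem_image_of_mem c (mem_univ _)) hxQ
  set c' : C → C := fun z => if c z ∈ Q then c x else c z with hcdef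
  have hmulti := h.multi c (subset_univ Y) Q
  have hYQ : Y.filter (fun x => c x ∈ Q) = Y := by
    apply filter_true_of_mem
    intro z hz; exact mem_image_of_mem c hz
  rw [hYQ] at hmulti
  have hval : val δ N t univ c ≤ val δ N t univ c' := by
    unfold val at o1 ⊢
    rw [← hY, ← hQ] at s1 s2
    have s1' : (nc S (fun z => if π z = a then (Sum.inr (c z) : C ⊕ C) else Sum.inl (π z)) : ℤ) + 1
        = nc S π + Q.card := by exact_mod_cast s1
    have m1' : (nc univ c' : ℤ) + Q.card = nc univ c + 1 := by exact_mod_cast m1
    have e1 : (nc S (fun z => if π z = a then (Sum.inr (c z) : C ⊕ C) else Sum.inl (π z)) : ℤ)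
        = nc S π + Q.card - 1 := by linarith
    have e2 : (nc univ c' : ℤ) = nc univ c + 1 - Q.card := by linarith
    have e3 : sd δ S (fun z => if π z = a then (Sum.inr (c z) : C ⊕ C) else Sum.inl (π z)) =
        sd δ S π + ∑ b ∈ Q, δ (Y.filter (fun x => c x = b)) - δ Y := by linarith
    have e4 : sd δ univ c' = sd δ univ c + δ (univ.filter (fun x => c x ∈ Q)) -
        ∑ b ∈ Q, δ (univ.filter (fun x => c x = b)) := by linarith
    rw [e1, e3] at o1
    rw [e2, e4]
    have hm := mul_le_mul_of_nonneg_left hmulti hN
    nlinarith [hm, o1]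
  have hopt' : IsOpt δ N t univ c' := fun d => le_trans (hc d) hval
  have := hc' c' hopt'
  omega

lemma nc_le (S : Finset C) (c : C → C) : nc S c ≤ Fintype.card C := by
  unfold nc
  exact (card_image_le).trans (card_le_univ S)

/-- Grid lemma: with weights `2 * (card C)!`, optimality at an odd parameter implies optimality at
the two neighbouring even parameters. -/
lemma opt_shift {S : Finset C} {c : C → C} {j : ℤ}
    (hc : IsOpt δ (2 * ((Fintype.card C).factorial : ℤ)) (2 * j + 1) S c) :
    IsOpt δ (2 * ((Fintype.card C).factorial : ℤ)) (2 * j) S c ∧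
    IsOpt δ (2 * ((Fintype.card C).factorial : ℤ)) (2 * j + 2) S c := by
  set M : ℤ := ((Fintype.card C).factorial : ℤ) with hM
  have key : ∀ a b : ℤ, |b| ≤ Fintype.card C → 2 * M * a + (2 * j + 1) * b ≤ 0 →
      2 * M * a + (2 * j) * b ≤ 0 ∧ 2 * M * a + (2 * j + 2) * b ≤ 0 := by
    intro a b hb hab
    rcases lt_trichotomy b 0 with hb0 | hb0 | hb0
    · have hpos : 0 < -b := by linarith
      have hdvd : (-b) ∣ M := by
        have : ((-b).toNat) ∣ (Fintype.card C).factorial := by
          apply Nat.dvd_factorial
          · omega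
          · have : ((-b).toNat : ℤ) = -b := Int.toNat_of_nonneg hpos.le
            have h2 : -b ≤ Fintype.card C := le_trans (neg_le_abs b) hb
            omega
        have h3 : (((-b).toNat : ℕ) : ℤ) ∣ M := by rw [hM]; exact_mod_cast this
        rwa [Int.toNat_of_nonneg hpos.le] at h3
      obtain ⟨M', hM'⟩ := hdvd
      have h1 : (-b) * (2 * M' * a - (2 * j + 1)) ≤ 0 := by
        have : (-b) * (2 * M' * a - (2 * j + 1)) = 2 * M * a + (2 * j + 1) * b := by
          rw [hM']; ring
        linarith
      have h2 : 2 * M' * a - (2 * j + 1) ≤ 0 := by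
        by_contra hcon
        push Not at hcon
        have := mul_pos hpos hcon
        linarith
      have h3 : 2 * M' * a - 2 * j ≤ 0 := by
        have : 2 * (M' * a) ≤ 2 * j + 1 := by linarith
        have : M' * a ≤ j := by omega
        linarith
      constructor
      · have : 2 * M * a + (2 * j) * b = (-b) * (2 * M' * a - 2 * j) := by rw [hM']; ring
        rw [this]
        exact mul_nonpos_of_nonneg_of_nonpos hpos.le h3
      · linarith
    · subst hb0; constructor <;> linarith
    · have hdvd : b ∣ M := by
        have : (b.toNat) ∣ (Fintype.card C).factorial := by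
          apply Nat.dvd_factorial
          · omega
          · have : (b.toNat : ℤ) = b := Int.toNat_of_nonneg hb0.le
            have h2 : b ≤ Fintype.card C := le_trans (le_abs_self b) hb
            omega
        have h3 : ((b.toNat : ℕ) : ℤ) ∣ M := by rw [hM]; exact_mod_cast this
        rwa [Int.toNat_of_nonneg hb0.le] at h3
      obtain ⟨M', hM'⟩ := hdvd
      have h1 : b * (2 * M' * a + (2 * j + 1)) ≤ 0 := by
        have : b * (2 * M' * a + (2 * j + 1)) = 2 * M * a + (2 * j + 1) * b := by
          rw [hM']; ring
        linarith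
      have h2 : 2 * M' * a + (2 * j + 1) ≤ 0 := by
        by_contra hcon
        push Not at hcon
        have := mul_pos hb0 hcon
        linarith
      have h3 : 2 * M' * a + (2 * j + 2) ≤ 0 := by
        have : 2 * (M' * a) ≤ - (2 * j + 1) := by linarith
        have : M' * a ≤ - j - 1 := by omega
        linarith
      constructor
      · linarith
      · have : 2 * M * a + (2 * j + 2) * b = b * (2 * M' * a + (2 * j + 2)) := by rw [hM']; ring
        rw [this]
        exact mul_nonpos_of_nonneg_of_nonpos hb0.le h3
  have hb : ∀ c' : C → C, |(nc S c' : ℤ) - nc S c| ≤ Fintype.card C := by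
    intro c'
    have h1 := nc_le S c'
    have h2 := nc_le S c
    rw [abs_le]; constructor <;> omega
  constructor
  · intro c'
    have h0 := hc c'
    unfold val at h0 ⊢
    have := (key (sd δ S c' - sd δ S c) ((nc S c' : ℤ) - nc S c) (hb c') (by linarith)).1
    linarith
  · intro c'
    have h0 := hc c'
    unfold val at h0 ⊢
    have := (key (sd δ S c' - sd δ S c) ((nc S c' : ℤ) - nc S c) (hb c') (by linarith)).2
    linarith

lemma sd_const [Nonempty C] (h : IsNull δ) (S : Finset C) (a : C) : sd δ S (fun _ => a) = δ S := by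
  unfold sd
  rcases S.eq_empty_or_nonempty with rfl | hS
  · simp [h.empty]
  · rw [image_const hS, sum_singleton]
    congr 1
    simp

lemma sd_of_injOn (h : IsNull δ) {β : Type*} [DecidableEq β] (S : Finset C) (c : C → β)
    (hc : Set.InjOn c (S : Set C)) : sd δ S c = 0 := by
  unfold sd
  apply sum_eq_zero
  intro b hb
  obtain ⟨x, hx, rfl⟩ := mem_image.mp hb
  have : S.filter (fun y => c y = c x) = {x} := by
    ext y; simp only [mem_filter, mem_singleton]
    constructor
    · rintro ⟨hy, hyx⟩; exact hc hy hx hyx
    · rintro rfl; exact ⟨hx, rfl⟩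
  rw [this, h.single]

/-- Telescoping identity. -/
lemma telescope [Nonempty C] (h : IsNull δ) (S : Finset C) (c : ℕ → C → C)
    (hc : ∀ j : ℕ, IsOpt δ (2 * ((Fintype.card C).factorial : ℤ)) (2 * (j : ℤ) + 1) S (c j))
    (J : ℕ) (hJ : 2 * ((Fintype.card C).factorial : ℤ) * δ univ ≤ 2 * (J : ℤ)) :
    2 * ((Fintype.card C).factorial : ℤ) * δ S + ∑ j ∈ range J, 2 * (nc S (c j) : ℤ) =
      2 * (J : ℤ) * S.card := by
  set N : ℤ := 2 * ((Fintype.card C).factorial : ℤ) with hN
  have hN0 : 0 ≤ N := by positivity
  have h0 : val δ N (2 * ((0 : ℕ) : ℤ)) S (c 0) = N * δ S := by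
    apply le_antisymm
    · unfold val
      have := mul_le_mul_of_nonneg_left (h.sd_le S (c 0)) hN0
      simp; linarith
    · have h1 := (opt_shift (hc 0)).1 (fun _ => Classical.arbitrary C)
      unfold val at h1 ⊢
      rw [sd_const h] at h1
      simp at h1 ⊢
      linarith
  have hstep : ∀ J : ℕ, val δ N (2 * ((0 : ℕ) : ℤ)) S (c 0) +
      ∑ j ∈ range J, 2 * (nc S (c j) : ℤ) = val δ N (2 * (J : ℤ)) S (c J) := by
    intro J
    induction J with
    | zero => simp
    | succ J ih =>
      rw [sum_range_succ, ← add_assoc, ih]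
      have h1 : val δ N (2 * (J : ℤ)) S (c J) + 2 * (nc S (c J) : ℤ) =
          val δ N (2 * (J : ℤ) + 2) S (c J) := by unfold val; ring
      rw [h1]
      have e : (2 * ((J + 1 : ℕ) : ℤ)) = 2 * (J : ℤ) + 2 := by push_cast; ring
      apply le_antisymm
      · rw [e.symm]
        exact (opt_shift (hc (J + 1))).1 _
      · rw [e]
        exact (opt_shift (hc J)).2 _
  have hend : val δ N (2 * (J : ℤ)) S (c J) = 2 * (J : ℤ) * S.card := by
    apply le_antisymm
    · unfold val
      have hle : nc S (c J) ≤ S.card := card_image_le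
      rcases Nat.lt_or_eq_of_le hle with hlt | heq
      · have h1 := mul_le_mul_of_nonneg_left (h.sd_le S (c J)) hN0
        have h2 := mul_le_mul_of_nonneg_left (h.mono (subset_univ S)) hN0
        have h3 : ((nc S (c J) : ℤ)) + 1 ≤ S.card := by exact_mod_cast hlt
        have h4 : (0 : ℤ) ≤ 2 * (J : ℤ) := by positivity
        have h5 := mul_le_mul_of_nonneg_left h3 h4
        linarith
      · have hinj : Set.InjOn (c J) (S : Set C) := card_image_iff.mp heq
        rw [sd_of_injOn h S _ hinj, heq]
        simp
    · have h1 := (opt_shift (hc J)).1 id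
      unfold val at h1 ⊢
      have h2 : nc S (id : C → C) = S.card := by unfold nc; simp
      rw [sd_of_injOn h S id (fun x _ y _ hxy => hxy), h2] at h1
      linarith
  have := hstep J
  rw [h0, hend] at this
  exact this

/-- **Combinatorial core.** -/
theorem core [Nonempty C] (h : IsNull δ) {I : Type*} [Fintype I] (D : I → Finset C)
    (σ : I → C → C) (hinj : ∀ i, Set.InjOn (σ i) (D i : Set C))
    (hinv : ∀ i, ∀ S ⊆ D i, δ (S.image (σ i)) = δ S)
    (hpart : ∀ c : C → C, ¬ Function.Injective c →
      ∑ i, (((D i).card : ℤ) - (((D i).image (fun x => (c x, c (σ i x)))).card : ℤ)) + 1 ≤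
        (Fintype.card C : ℤ) - ((univ.image c).card : ℤ))
    (hpos : 1 ≤ δ univ) : ∑ i, δ (D i) + 1 ≤ δ univ := by
  classical
  set M : ℤ := ((Fintype.card C).factorial : ℤ) with hM
  have hM1 : 1 ≤ M := by
    rw [hM]; exact_mod_cast Nat.one_le_iff_ne_zero.mpr (Nat.factorial_ne_zero _)
  have hMn : (Fintype.card C : ℤ) ≤ M := by
    rw [hM]; exact_mod_cast Nat.self_le_factorial _
  choose c hc hc' using fun j : ℕ => exists_coarse δ (2 * M) (2 * (j : ℤ) + 1) (univ : Finset C)
  choose π hπ using fun (i : I) (j : ℕ) => exists_opt δ (2 * M) (2 * (j : ℤ) + 1) (D i)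
  obtain ⟨J, hJ⟩ : ∃ J : ℕ, 2 * M * δ univ ≤ 2 * (J : ℤ) ∧ 1 ≤ J := by
    refine ⟨(M * δ univ).toNat + 1, ?_, by omega⟩
    have := Int.self_le_toNat (M * δ univ)
    push_cast
    linarith
  have t0 := telescope h univ c hc J hJ.1
  have t1 := fun i => telescope h (D i) (π i) (hπ i) J hJ.1
  -- termwise comparison
  have hle : ∀ (j : ℕ) (i : I), (((D i).image (fun x => (c j x, c j (σ i x)))).card : ℤ) ≤
      (nc (D i) (π i j) : ℤ) := by
    intro j i
    have hN0 : (0 : ℤ) ≤ 2 * M := by linarith
    -- transported colouring of the image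
    have r1 : ∀ x ∈ D i, ∀ y ∈ D i, π i j x = π i j y → c j x = c j y :=
      fun x hx y hy hxy => refine_opt h hN0 (hc j) (hc' j) (hπ i j) hx hy hxy
    have r2 : ∀ x ∈ D i, ∀ y ∈ D i, π i j x = π i j y → c j (σ i x) = c j (σ i y) := by
      intro x hx y hy hxy
      -- colouring of the image set
      set R := (D i).image (σ i) with hR
      set τ : C → C := Function.invFunOn (σ i) (D i : Set C) with hτ
      have hτσ : ∀ z ∈ D i, τ (σ i z) = z := by
        intro z hz
        exact (hinj i).leftInvOn_invFunOn hz
      have hval : ∀ (N t : ℤ) (p : C → C), val δ N t R (fun z => p (τ z)) = val δ N t (D i) p := by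
        intro N t p
        have him : R.image (fun z => p (τ z)) = (D i).image p := by
          rw [hR, image_image]
          apply image_congr
          intro z hz
          simp only [Function.comp]
          rw [hτσ z hz]
        unfold val nc sd
        rw [him]
        congr 2
        apply sum_congr rfl
        intro b hb
        have : R.filter (fun z => p (τ z) = b) = ((D i).filter (fun z => p z = b)).image (σ i) := by
          ext u
          simp only [hR, mem_filter, mem_image]
          constructor
          · rintro ⟨⟨z, hz, rfl⟩, hz2⟩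
            rw [hτσ z hz] at hz2
            exact ⟨z, ⟨hz, hz2⟩, rfl⟩
          · rintro ⟨z, ⟨hz, hz2⟩, rfl⟩
            refine ⟨⟨z, hz, rfl⟩, ?_⟩
            rw [hτσ z hz]; exact hz2
        rw [this, hinv i _ (filter_subset _ _)]
      have hval2 : ∀ (N t : ℤ) (p : C → C), val δ N t (D i) (fun z => p (σ i z)) = val δ N t R p := by
        intro N t p
        rw [← hval N t (fun z => p (σ i z))]
        have : ∀ z ∈ R, σ i (τ z) = z := by
          intro z hz
          obtain ⟨w, hw, rfl⟩ := mem_image.mp hz
          rw [hτσ w hw]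
        unfold val nc sd
        have him : R.image (fun z => p (σ i (τ z))) = R.image p := by
          apply image_congr
          intro z hz
          simp only
          rw [this z hz]
        rw [him]
        congr 2
        apply sum_congr rfl
        intro b hb
        congr 1
        apply filter_congr
        intro z hz
        change p (σ i (τ z)) = b ↔ p z = b
        rw [this z hz]
      have hoptR : IsOpt δ (2 * M) (2 * (j : ℤ) + 1) R (fun z => π i j (τ z)) := by
        intro p
        rw [hval, ← hval2]
        exact hπ i j _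
      have := refine_opt h hN0 (hc j) (hc' j) hoptR (mem_image_of_mem (σ i) hx)
        (mem_image_of_mem (σ i) hy) (by simp only [hτσ x hx, hτσ y hy, hxy])
      exact this
    have : ((D i).image (fun x => (c j x, c j (σ i x)))).card ≤ ((D i).image (π i j)).card := by
      apply card_le_card_of_surjOn (fun b =>
        (c j (Function.invFunOn (π i j) (D i : Set C) b),
          c j (σ i (Function.invFunOn (π i j) (D i : Set C) b))))
      intro u hu
      obtain ⟨x, hx, rfl⟩ := mem_image.mp (mem_coe.mp hu)
      refine ⟨π i j x, mem_coe.mpr (mem_image_of_mem _ hx), ?_⟩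
      have hex : ∃ a ∈ (D i : Set C), π i j a = π i j x := ⟨x, hx, rfl⟩
      have g1 := Function.invFunOn_mem hex
      have g2 := Function.invFunOn_eq hex
      simp only [Prod.mk.injEq]
      exact ⟨r1 _ g1 _ hx g2, r2 _ g1 _ hx g2⟩
    exact_mod_cast this
  have hterm : ∀ j : ℕ, ∑ i, (((D i).card : ℤ) - (nc (D i) (π i j) : ℤ)) ≤
      (Fintype.card C : ℤ) - (nc univ (c j) : ℤ) ∧ (¬ Function.Injective (c j) →
      ∑ i, (((D i).card : ℤ) - (nc (D i) (π i j) : ℤ)) + 1 ≤
      (Fintype.card C : ℤ) - (nc univ (c j) : ℤ)) := by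
    intro j
    have hsum : ∑ i, (((D i).card : ℤ) - (nc (D i) (π i j) : ℤ)) ≤
        ∑ i, (((D i).card : ℤ) - (((D i).image (fun x => (c j x, c j (σ i x)))).card : ℤ)) := by
      apply sum_le_sum
      intro i _
      linarith [hle j i]
    have hni : ¬ Function.Injective (c j) →
        ∑ i, (((D i).card : ℤ) - (nc (D i) (π i j) : ℤ)) + 1 ≤
        (Fintype.card C : ℤ) - (nc univ (c j) : ℤ) := by
      intro hcinj
      have := hpart (c j) hcinj
      have e : (nc univ (c j) : ℤ) = ((univ.image (c j)).card : ℤ) := rfl
      linarith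
    refine ⟨?_, hni⟩
    by_cases hcinj : Function.Injective (c j)
    · have e1 : (univ.image (c j)).card = Fintype.card C := by
        rw [card_image_of_injective _ hcinj, card_univ]
      have e2 : ∑ i, (((D i).card : ℤ) -
          (((D i).image (fun x => (c j x, c j (σ i x)))).card : ℤ)) = 0 := by
        apply sum_eq_zero
        intro i _
        rw [card_image_of_injOn]
        · ring
        · intro x _ y _ hxy
          simp only [Prod.mk.injEq] at hxy
          exact hcinj hxy.1
      rw [e2] at hsum
      have : (nc univ (c j) : ℤ) = Fintype.card C := by unfold nc; exact_mod_cast e1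
      linarith
    · linarith [hni hcinj]
  -- at `j = 0` the coarsest optimal colouring is not injective
  have hnotinj : ¬ Function.Injective (c 0) := by
    intro hcinj
    have h1 := hc 0 (fun _ => Classical.arbitrary C)
    unfold val at h1
    rw [sd_const h, sd_of_injOn h univ (c 0) (fun x _ y _ hxy => hcinj hxy)] at h1
    have e1 : (nc univ (c 0) : ℤ) = Fintype.card C := by
      unfold nc
      rw [card_image_of_injective _ hcinj, card_univ]
    have e2 : (1 : ℤ) ≤ (nc (univ : Finset C) (fun _ => Classical.arbitrary C) : ℤ) := by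
      unfold nc
      have : 0 < ((univ : Finset C).image (fun _ => Classical.arbitrary C)).card :=
        card_pos.mpr ⟨Classical.arbitrary C, mem_image.mpr ⟨Classical.arbitrary C, mem_univ _, rfl⟩⟩
      exact_mod_cast this
    rw [e1] at h1
    push_cast at h1
    nlinarith
  have htotal : (1 : ℤ) ≤ ∑ j ∈ range J, ((Fintype.card C : ℤ) - (nc univ (c j) : ℤ) -
      ∑ i, (((D i).card : ℤ) - (nc (D i) (π i j) : ℤ))) := by
    have h0 : (0 : ℕ) ∈ range J := mem_range.mpr (by omega)
    rw [← add_sum_erase _ _ h0]
    have hnn : (0 : ℤ) ≤ ∑ j ∈ (range J).erase 0, ((Fintype.card C : ℤ) - (nc univ (c j) : ℤ) -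
      ∑ i, (((D i).card : ℤ) - (nc (D i) (π i j) : ℤ))) := by
      apply sum_nonneg
      intro j _
      linarith [(hterm j).1]
    linarith [(hterm 0).2 hnotinj]
  have hid : M * (δ univ - ∑ i, δ (D i)) = ∑ j ∈ range J, ((Fintype.card C : ℤ) -
      (nc univ (c j) : ℤ) - ∑ i, (((D i).card : ℤ) - (nc (D i) (π i j) : ℤ))) := by
    have e0 : M * δ univ = ∑ j ∈ range J, ((Fintype.card C : ℤ) - (nc univ (c j) : ℤ)) := by
      rw [sum_sub_distrib, sum_const, card_range, nsmul_eq_mul]
      rw [← mul_sum, card_univ] at t0
      linarith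
    have e1 : ∀ i, M * δ (D i) = ∑ j ∈ range J, (((D i).card : ℤ) - (nc (D i) (π i j) : ℤ)) := by
      intro i
      rw [sum_sub_distrib, sum_const, card_range, nsmul_eq_mul]
      have := t1 i
      rw [← mul_sum] at this
      linarith
    rw [mul_sub, mul_sum, e0, sum_sub_distrib (f := fun j => (Fintype.card C : ℤ) -
      (nc univ (c j) : ℤ))]
    congr 1
    rw [sum_comm]
    exact sum_congr rfl (fun i _ => e1 i)
  rw [← hid] at htotal
  have : 0 < δ univ - ∑ i, δ (D i) := by
    by_contra hcon
    push Not at hcon
    have := mul_nonpos_of_nonneg_of_nonpos (by linarith : (0 : ℤ) ≤ M) hcon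
    linarith
  linarith

end Core

end Pool.Agent.Lib.MP_eee65c_al
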