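import Pool.Agent.Lib.MP_eee65c_al.Graph

namespace Pool.Agent.Lib.MP_eee65c_al

open Finset

section Upper

set_option linter.unusedSectionVars false

variable {α : Type*} [Fintype α] [DecidableEq α] {X : Type*} [DecidableEq X]
  [MulAction (FreeGroup α) X]

/-- Basis vector attached to an edge of `T` (zero off `T`). -/
noncomputable def ev (T : Finset X) (s : α) (x : X) : (α × X) →₀ ℚ :=
  if x ∈ T ∧ FreeGroup.of s • x ∈ T then Finsupp.single (s, x) 1 else 0

/-- Permutation of `X × M` recording traversed edges. -/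
noncomputable def stepPerm (T : Finset X) (s : α) : Equiv.Perm (X × ((α × X) →₀ ℚ)) where
  toFun p := (FreeGroup.of s • p.1, p.2 + ev T s p.1)
  invFun p := ((FreeGroup.of s)⁻¹ • p.1, p.2 - ev T s ((FreeGroup.of s)⁻¹ • p.1))
  left_inv p := by simp
  right_inv p := by simp

/-- The edge-recording action. -/
noncomputable def Psi (T : Finset X) : FreeGroup α →* Equiv.Perm (X × ((α × X) →₀ ℚ)) :=
  FreeGroup.lift (stepPerm T)

/-- The edge-recording cocycle. -/
noncomputable def kap (T : Finset X) (g : FreeGroup α) (x : X) : (α × X) →₀ ℚ :=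
  (Psi T g (x, 0)).2

lemma Psi_apply (T : Finset X) (g : FreeGroup α) (x : X) (v : (α × X) →₀ ℚ) :
    Psi T g (x, v) = (g • x, v + kap T g x) := by
  unfold kap
  revert x v
  refine FreeGroup.induction_on (C := fun g => ∀ (x : X) (v : (α × X) →₀ ℚ),
    Psi T g (x, v) = (g • x, v + (Psi T g (x, 0)).2)) g ?_ ?_ ?_ ?_
  · intro x v; simp
  · intro s x v
    simp [Psi, stepPerm]
  · intro s _ x v
    have e : Psi T (FreeGroup.of s)⁻¹ = (stepPerm T s)⁻¹ := by
      rw [map_inv]; simp [Psi]
    change Psi T (FreeGroup.of s)⁻¹ (x, v) = ((FreeGroup.of s)⁻¹ • x, v + (Psi T (FreeGroup.of s)⁻¹ (x, 0)).2)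
    rw [e]
    change (stepPerm T s).symm (x, v) = (_, v + ((stepPerm T s).symm (x, 0)).2)
    simp [stepPerm, sub_eq_add_neg]
  · intro g h ihg ihh x v
    rw [map_mul, Equiv.Perm.mul_apply, Equiv.Perm.mul_apply, ihh x v, ihg, ihh x 0, ihg (h • x) (0 + _)]
    simp [mul_smul, add_assoc]

lemma kap_one (T : Finset X) (x : X) : kap T (1 : FreeGroup α) x = 0 := by
  simp [kap]

lemma kap_mul (T : Finset X) (g h : FreeGroup α) (x : X) :
    kap T (g * h) x = kap T g (h • x) + kap T h x := by
  have h1 : Psi T (g * h) (x, 0) = Psi T g (Psi T h (x, 0)) := by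
    rw [map_mul]; rfl
  rw [Psi_apply, Psi_apply, Psi_apply] at h1
  have := congrArg Prod.snd h1
  simp only [zero_add] at this
  rw [this, add_comm]

lemma kap_of (T : Finset X) {s : α} {x : X} (h : x ∈ TS T s) :
    kap T (FreeGroup.of s) x = Finsupp.single (s, x) 1 := by
  rw [mem_TS] at h
  simp [kap, Psi, stepPerm, ev, h.1, h.2]

/-- Upper bound for the number of edges. -/
lemma edges_le {T : Finset X} {o : X} (ho : o ∈ T)
    (htr : ∀ x ∈ T, ∃ g : FreeGroup α, g • o = x)
    {ι : Type*} [Fintype ι] (h : ι → FreeGroup α)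
    (hcl : Subgroup.closure (Set.range h) = MulAction.stabilizer (FreeGroup α) o) :
    ∑ s : α, (TS T s).card + 1 ≤ T.card + Fintype.card ι := by
  classical
  have htr' : ∀ x : X, ∃ g : FreeGroup α, (x ∈ T → g • o = x) ∧ (x = o → g = 1) := by
    intro x
    by_cases hx : x = o
    · exact ⟨1, fun _ => by rw [one_smul, hx], fun _ => rfl⟩
    · by_cases hxT : x ∈ T
      · obtain ⟨g, hg⟩ := htr x hxT
        exact ⟨g, fun _ => hg, fun h => absurd h hx⟩
      · exact ⟨1, fun h => absurd h hxT, fun h => absurd h hx⟩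
  choose p hp hpo using htr'
  set B : Finset ((α × X) →₀ ℚ) := (univ.image (fun j => kap T (h j) o)) ∪
    ((T.erase o).image (fun x => kap T (p x) o)) with hB
  set W := Submodule.span ℚ (B : Set ((α × X) →₀ ℚ)) with hW
  have hBc : B.card ≤ Fintype.card ι + (T.card - 1) := by
    refine (card_union_le _ _).trans (Nat.add_le_add ?_ ?_)
    · exact card_image_le
    · refine card_image_le.trans ?_
      rw [card_erase_of_mem ho]
  have hH : ∀ g ∈ MulAction.stabilizer (FreeGroup α) o, kap T g o ∈ W := by
    intro g hg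
    rw [← hcl] at hg
    have hfix : ∀ g ∈ Subgroup.closure (Set.range h), g • o = o := by
      intro g hg; rw [hcl] at hg; exact hg
    induction hg using Subgroup.closure_induction with
    | mem x hx =>
      obtain ⟨j, rfl⟩ := hx
      apply Submodule.subset_span
      rw [hB, mem_coe, mem_union]
      exact Or.inl (mem_image_of_mem _ (mem_univ _))
    | one => rw [kap_one]; exact W.zero_mem
    | mul x y hx hy ihx ihy =>
      rw [kap_mul, hfix y hy]; exact W.add_mem ihx ihy
    | inv x hx ih =>
      have e : kap T (x⁻¹ * x) o = 0 := by rw [inv_mul_cancel, kap_one]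
      rw [kap_mul, hfix x hx] at e
      have : kap T x⁻¹ o = - kap T x o := eq_neg_of_add_eq_zero_left e
      rw [this]; exact W.neg_mem ih
  have hp' : ∀ x ∈ T, kap T (p x) o ∈ W := by
    intro x hx
    by_cases hxo : x = o
    · rw [hpo x hxo, kap_one]; exact W.zero_mem
    · apply Submodule.subset_span
      rw [hB, mem_coe, mem_union]
      exact Or.inr (mem_image_of_mem _ (mem_erase.mpr ⟨hxo, hx⟩))
  have hE : ∀ (s : α) (x : X), x ∈ TS T s → Finsupp.single (s, x) (1 : ℚ) ∈ W := by
    intro s x hx
    have hx' := mem_TS.mp hx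
    have hmem : (p (FreeGroup.of s • x))⁻¹ * (FreeGroup.of s * p x) ∈
        MulAction.stabilizer (FreeGroup α) o := by
      rw [MulAction.mem_stabilizer_iff, mul_smul, mul_smul, hp x hx'.1, inv_smul_eq_iff,
        hp _ hx'.2]
    have e1 : kap T (FreeGroup.of s * p x) o = Finsupp.single (s, x) 1 + kap T (p x) o := by
      rw [kap_mul, hp x hx'.1, kap_of T hx]
    have e2 : kap T (p (FreeGroup.of s • x) * ((p (FreeGroup.of s • x))⁻¹ * (FreeGroup.of s * p x))) o
        = kap T (p (FreeGroup.of s • x)) o +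
          kap T ((p (FreeGroup.of s • x))⁻¹ * (FreeGroup.of s * p x)) o := by
      rw [kap_mul, MulAction.mem_stabilizer_iff.mp hmem]
    rw [mul_inv_cancel_left, e1] at e2
    have e3 : Finsupp.single (s, x) (1 : ℚ) = kap T (p (FreeGroup.of s • x)) o +
          kap T ((p (FreeGroup.of s • x))⁻¹ * (FreeGroup.of s * p x)) o - kap T (p x) o := by
      rw [← e2]; abel
    rw [e3]
    exact W.sub_mem (W.add_mem (hp' _ hx'.2) (hH _ hmem)) (hp' _ hx'.1)
  -- dimension count
  set E : Finset (α × X) := univ.biUnion (fun s => (TS T s).image (fun x => (s, x))) with hEdef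
  have hEcard : E.card = ∑ s : α, (TS T s).card := by
    rw [hEdef, card_biUnion]
    · exact sum_congr rfl (fun s _ => card_image_of_injective _ (fun a b hab => by
        simpa using hab))
    · intro s _ s' _ hss
      rw [Function.onFun, disjoint_left]
      intro e he he'
      obtain ⟨x, _, rfl⟩ := mem_image.mp he
      obtain ⟨y, _, hy⟩ := mem_image.mp he'
      exact hss (congrArg Prod.fst hy).symm
  have hli : LinearIndependent ℚ (fun e : E => (Finsupp.single (e : α × X) (1 : ℚ))) := by
    have h1 : LinearIndependent ℚ (fun e : α × X => (Finsupp.single e (1 : ℚ))) :=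
      Finsupp.linearIndependent_single_one ℚ (α × X)
    exact h1.comp _ Subtype.val_injective
  have hle : Fintype.card E ≤ Set.finrank ℚ (B : Set ((α × X) →₀ ℚ)) := by
    have h3 : ∀ e : E, Finsupp.single (e : α × X) (1 : ℚ) ∈ W := by
      rintro ⟨⟨s, x⟩, he⟩
      rw [hEdef, mem_biUnion] at he
      obtain ⟨s', _, he⟩ := he
      obtain ⟨x', hx', he⟩ := mem_image.mp he
      simp only [Prod.mk.injEq] at he
      obtain ⟨rfl, rfl⟩ := he
      exact hE _ _ hx'
    have h4 : LinearIndependent ℚ (fun e : E => (⟨Finsupp.single (e : α × X) (1 : ℚ), h3 e⟩ : W)) :=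
      LinearIndependent.of_comp W.subtype hli
    have : FiniteDimensional ℚ W := FiniteDimensional.span_finset ℚ B
    exact h4.fintype_card_le_finrank
  have hfin := finrank_span_finset_le_card (R := ℚ) B
  rw [Fintype.card_coe, hEcard] at hle
  have hpos : 0 < T.card := card_pos.mpr ⟨o, ho⟩
  have h5 := hle.trans (hfin.trans hBc)
  omega

end Upper

end Pool.Agent.Lib.MP_eee65c_al
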