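import Mathlib

/-!
Finite connected pieces of Schreier graphs of free groups: edge counts.
-/

namespace Pool.Agent.Lib.MP_eee65c_al

open Finset

section Graph

set_option linter.unusedSectionVars false

variable {α : Type*} [Fintype α] [DecidableEq α] {X : Type*} [DecidableEq X]
  [MulAction (FreeGroup α) X]

/-- Vertices of `T` from which the edge labelled `s` stays in `T`. -/
def TS (T : Finset X) (s : α) : Finset X := T.filter (fun x => FreeGroup.of s • x ∈ T)

lemma mem_TS {T : Finset X} {s : α} {x : X} :
    x ∈ TS T s ↔ x ∈ T ∧ FreeGroup.of s • x ∈ T := by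
  unfold TS; exact mem_filter

/-- `Reach T o g`: some word for `g` can be read inside `T` starting from `o`. -/
inductive Reach (T : Finset X) (o : X) : FreeGroup α → Prop
  | one : o ∈ T → Reach T o 1
  | up (g : FreeGroup α) (s : α) : Reach T o g → (FreeGroup.of s * g) • o ∈ T →
      Reach T o (FreeGroup.of s * g)
  | down (g : FreeGroup α) (s : α) : Reach T o g → ((FreeGroup.of s)⁻¹ * g) • o ∈ T →
      Reach T o ((FreeGroup.of s)⁻¹ * g)

omit [Fintype α] [DecidableEq α] [DecidableEq X] in
lemma Reach.mem {T : Finset X} {o : X} {g : FreeGroup α} (h : Reach T o g) : g • o ∈ T := by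
  cases h with
  | one h => simpa using h
  | up g s _ h => exact h
  | down g s _ h => exact h

omit [Fintype α] [DecidableEq α] [DecidableEq X] in
lemma Reach.base {T : Finset X} {o : X} {g : FreeGroup α} (h : Reach T o g) : o ∈ T := by
  induction h with
  | one h => exact h
  | up g s _ _ ih => exact ih
  | down g s _ _ ih => exact ih

/-- Existence of good finite pieces. -/
lemma exists_good (o : X) (S : Finset (FreeGroup α)) :
    ∃ T : Finset X, o ∈ T ∧ (∀ x ∈ T, ∃ g : FreeGroup α, Reach T o g ∧ g • o = x) ∧
      ∀ g ∈ S, Reach T o g := by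
  classical
  set T : Finset X := insert o (S.biUnion (fun g =>
    ((FreeGroup.toWord g).tails.map (fun v => FreeGroup.mk v • o)).toFinset)) with hT
  have ho : o ∈ T := mem_insert_self _ _
  have hreach : ∀ g ∈ S, ∀ v : List (α × Bool), v <:+ FreeGroup.toWord g →
      Reach T o (FreeGroup.mk v) := by
    intro g hg v
    induction v with
    | nil => intro _; exact Reach.one ho
    | cons a v ih =>
      intro hv
      have hv' : v <:+ FreeGroup.toWord g := (List.suffix_cons a v).trans hv
      have hmem : FreeGroup.mk (a :: v) • o ∈ T := by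
        rw [hT]
        apply mem_insert_of_mem
        rw [mem_biUnion]
        refine ⟨g, hg, ?_⟩
        rw [List.mem_toFinset, List.mem_map]
        exact ⟨a :: v, (List.mem_tails _ _).mpr hv, rfl⟩
      obtain ⟨s, b⟩ := a
      cases b with
      | true =>
        have e : (FreeGroup.mk ((s, true) :: v) : FreeGroup α) =
            FreeGroup.of s * FreeGroup.mk v := by
          rw [FreeGroup.of, FreeGroup.mul_mk]; rfl
        rw [e] at hmem ⊢
        exact Reach.up _ s (ih hv') hmem
      | false =>
        have e : (FreeGroup.mk ((s, false) :: v) : FreeGroup α) =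
            (FreeGroup.of s)⁻¹ * FreeGroup.mk v := by
          rw [FreeGroup.of, FreeGroup.inv_mk, FreeGroup.mul_mk]; rfl
        rw [e] at hmem ⊢
        exact Reach.down _ s (ih hv') hmem
  refine ⟨T, ho, ?_, ?_⟩
  · intro x hx
    rw [hT, mem_insert] at hx
    rcases hx with rfl | hx
    · exact ⟨1, Reach.one ho, one_smul _ _⟩
    · rw [mem_biUnion] at hx
      obtain ⟨g, hg, hx⟩ := hx
      rw [List.mem_toFinset, List.mem_map] at hx
      obtain ⟨v, hv, rfl⟩ := hx
      exact ⟨FreeGroup.mk v, hreach g hg v ((List.mem_tails _ _).mp hv), rfl⟩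
  · intro g hg
    have := hreach g hg (FreeGroup.toWord g) (List.suffix_refl _)
    rwa [FreeGroup.mk_toWord] at this

/-- Label of an edge of the quotient graph with respect to a choice of transport elements. -/
def gen {β : Type*} (p : β → FreeGroup α) (e : α × β × β) : FreeGroup α :=
  (p e.2.2)⁻¹ * FreeGroup.of e.1 * p e.2.1

/-- Edges of the quotient graph. -/
def Ed {β : Type*} [DecidableEq β] (T : Finset X) (c : X → β) : Finset (α × β × β) :=
  univ.biUnion (fun s => (TS T s).image (fun x => (s, c x, c (FreeGroup.of s • x))))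

lemma card_Ed {β : Type*} [DecidableEq β] (T : Finset X) (c : X → β) :
    (Ed (α := α) T c).card =
      ∑ s : α, ((TS T s).image (fun x => (c x, c (FreeGroup.of s • x)))).card := by
  classical
  unfold Ed
  rw [card_biUnion]
  · apply sum_congr rfl
    intro s _
    have : (TS T s).image (fun x => (s, c x, c (FreeGroup.of s • x))) =
        ((TS T s).image (fun x => (c x, c (FreeGroup.of s • x)))).image (fun e => (s, e)) := by
      rw [image_image]; rfl
    rw [this, card_image_of_injective _ (fun a b hab => (Prod.mk.injEq _ _ _ _ ▸ hab).2)]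
  · intro s _ s' _ hss
    rw [Function.onFun, disjoint_left]
    intro e he he'
    obtain ⟨x, _, rfl⟩ := mem_image.mp he
    obtain ⟨y, _, hy⟩ := mem_image.mp he'
    exact hss (congrArg Prod.fst hy).symm

lemma mem_Ed {β : Type*} [DecidableEq β] {T : Finset X} {c : X → β} {s : α} {x : X}
    (hx : x ∈ T) (hsx : FreeGroup.of s • x ∈ T) : (s, c x, c (FreeGroup.of s • x)) ∈ Ed T c := by
  unfold Ed
  rw [mem_biUnion]
  exact ⟨s, mem_univ _, mem_image.mpr ⟨x, mem_TS.mpr ⟨hx, hsx⟩, rfl⟩⟩

/-- Crossing edge. -/
lemma exists_crossing {β : Type*} [DecidableEq β] {T : Finset X} {o : X} (c : X → β)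
    (V' : Finset β) (hV' : c o ∈ V') {g : FreeGroup α} (hg : Reach T o g) (hgo : c (g • o) ∉ V') :
    ∃ (y : X) (s : α), y ∈ T ∧ FreeGroup.of s • y ∈ T ∧
      ((c y ∈ V' ∧ c (FreeGroup.of s • y) ∉ V') ∨ (c y ∉ V' ∧ c (FreeGroup.of s • y) ∈ V')) := by
  induction hg with
  | one h => rw [one_smul] at hgo; exact absurd hV' hgo
  | up g s hg h ih =>
    by_cases hc : c (g • o) ∈ V'
    · refine ⟨g • o, s, hg.mem, ?_, Or.inl ⟨hc, ?_⟩⟩
      · rw [← mul_smul]; exact h
      · rw [← mul_smul]; exact hgo
    · exact ih hc
  | down g s hg h ih =>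
    by_cases hc : c (g • o) ∈ V'
    · refine ⟨((FreeGroup.of s)⁻¹ * g) • o, s, h, ?_, Or.inr ⟨hgo, ?_⟩⟩
      · rw [← mul_smul, mul_inv_cancel_left]; exact hg.mem
      · rw [← mul_smul, mul_inv_cancel_left]; exact hc
    · exact ih hc

/-- Spanning tree of the quotient graph. -/
lemma exists_spanning {β : Type*} [DecidableEq β] {T : Finset X} {o : X} (ho : o ∈ T) (c : X → β)
    (hconn : ∀ x ∈ T, ∃ g : FreeGroup α, Reach T o g ∧ g • o = x) :
    ∃ (p : β → FreeGroup α) (F : Finset (α × β × β)), p (c o) = 1 ∧ F ⊆ Ed T c ∧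
      F.card + 1 = (T.image c).card ∧ ∀ e ∈ F, gen p e = 1 := by
  classical
  have key : ∀ k : ℕ, k < (T.image c).card → ∃ (V' : Finset β) (p : β → FreeGroup α)
      (F : Finset (α × β × β)), V' ⊆ T.image c ∧ V'.card = k + 1 ∧ c o ∈ V' ∧ p (c o) = 1 ∧
      F ⊆ Ed T c ∧ F.card = k ∧ ∀ e ∈ F, e.2.1 ∈ V' ∧ e.2.2 ∈ V' ∧ gen p e = 1 := by
    intro k
    induction k with
    | zero =>
      intro _
      refine ⟨{c o}, fun _ => 1, ∅, ?_, ?_, ?_, rfl, ?_, ?_, ?_⟩
      · intro b hb; rw [mem_singleton] at hb; subst hb; exact mem_image_of_mem c ho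
      · simp
      · simp
      · simp
      · simp
      · simp
    | succ k ih =>
      intro hk
      obtain ⟨V', p, F, hV, hVc, hoV, hpo, hF, hFc, hFp⟩ := ih (by omega)
      obtain ⟨b, hb, hbV⟩ : ∃ b ∈ T.image c, b ∉ V' := by
        by_contra hcon
        push Not at hcon
        have : (T.image c).card ≤ V'.card := card_le_card hcon
        omega
      obtain ⟨x, hx, rfl⟩ := mem_image.mp hb
      obtain ⟨g, hg, rfl⟩ := hconn x hx
      obtain ⟨y, s, hy, hsy, hcase⟩ := exists_crossing c V' hoV hg hbV
      rcases hcase with ⟨h1, h2⟩ | ⟨h1, h2⟩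
      · set b' := c (FreeGroup.of s • y) with hb'
        have hne : c y ≠ b' := fun h => h2 (h ▸ h1)
        have hoe : c o ≠ b' := fun h => h2 (h ▸ hoV)
        refine ⟨insert b' V', Function.update p b' (FreeGroup.of s * p (c y)),
          insert (s, c y, b') F, ?_, ?_, ?_, ?_, ?_, ?_, ?_⟩
        · intro u hu
          rcases mem_insert.mp hu with rfl | hu
          · exact mem_image_of_mem c hsy
          · exact hV hu
        · rw [card_insert_of_notMem h2, hVc]
        · exact mem_insert_of_mem hoV
        · rw [Function.update_of_ne hoe]; exact hpo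
        · intro e he
          rcases mem_insert.mp he with rfl | he
          · exact mem_Ed hy hsy
          · exact hF he
        · rw [card_insert_of_notMem, hFc]
          intro hmem
          exact h2 (hFp _ hmem).2.1
        · intro e he
          rcases mem_insert.mp he with rfl | he
          · refine ⟨mem_insert_of_mem h1, mem_insert_self _ _, ?_⟩
            unfold gen
            simp only [Function.update_self, Function.update_of_ne hne]
            group
          · obtain ⟨q1, q2, q3⟩ := hFp e he
            refine ⟨mem_insert_of_mem q1, mem_insert_of_mem q2, ?_⟩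
            have n1 : e.2.1 ≠ b' := fun h => h2 (h ▸ q1)
            have n2 : e.2.2 ≠ b' := fun h => h2 (h ▸ q2)
            unfold gen at q3 ⊢
            rw [Function.update_of_ne n1, Function.update_of_ne n2]
            exact q3
      · set b' := c y with hb'
        have hne : c (FreeGroup.of s • y) ≠ b' := fun h => h1 (h ▸ h2)
        have hoe : c o ≠ b' := fun h => h1 (h ▸ hoV)
        refine ⟨insert b' V', Function.update p b' ((FreeGroup.of s)⁻¹ * p (c (FreeGroup.of s • y))),
          insert (s, b', c (FreeGroup.of s • y)) F, ?_, ?_, ?_, ?_, ?_, ?_, ?_⟩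
        · intro u hu
          rcases mem_insert.mp hu with rfl | hu
          · exact mem_image_of_mem c hy
          · exact hV hu
        · rw [card_insert_of_notMem h1, hVc]
        · exact mem_insert_of_mem hoV
        · rw [Function.update_of_ne hoe]; exact hpo
        · intro e he
          rcases mem_insert.mp he with rfl | he
          · exact mem_Ed hy hsy
          · exact hF he
        · rw [card_insert_of_notMem, hFc]
          intro hmem
          exact h1 (hFp _ hmem).1
        · intro e he
          rcases mem_insert.mp he with rfl | he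
          · refine ⟨mem_insert_self _ _, mem_insert_of_mem h2, ?_⟩
            unfold gen
            simp only [Function.update_self, Function.update_of_ne hne]
            group
          · obtain ⟨q1, q2, q3⟩ := hFp e he
            refine ⟨mem_insert_of_mem q1, mem_insert_of_mem q2, ?_⟩
            have n1 : e.2.1 ≠ b' := fun h => h1 (h ▸ q1)
            have n2 : e.2.2 ≠ b' := fun h => h1 (h ▸ q2)
            unfold gen at q3 ⊢
            rw [Function.update_of_ne n1, Function.update_of_ne n2]
            exact q3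
  have hpos : 0 < (T.image c).card := card_pos.mpr ⟨c o, mem_image_of_mem c ho⟩
  obtain ⟨V', p, F, hV, hVc, hoV, hpo, hF, hFc, hFp⟩ := key ((T.image c).card - 1) (by omega)
  exact ⟨p, F, hpo, hF, by omega, fun e he => (hFp e he).2.2⟩

/-- A connected graph has at least `|V| - 1` edges. -/
lemma card_le_edges {T : Finset X} {o : X} (ho : o ∈ T)
    (hconn : ∀ x ∈ T, ∃ g : FreeGroup α, Reach T o g ∧ g • o = x) :
    T.card ≤ ∑ s : α, (TS T s).card + 1 := by
  classical
  obtain ⟨p, F, _, hF, hFc, _⟩ := exists_spanning ho (id : X → X) hconn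
  have h1 := card_le_card hF
  rw [card_Ed] at h1
  have h2 : ∀ s : α, ((TS T s).image (fun x => (id x, id (FreeGroup.of s • x)))).card ≤
      (TS T s).card := fun s => card_image_le
  have h3 := sum_le_sum (fun s (_ : s ∈ (univ : Finset α)) => h2 s)
  rw [image_id] at hFc
  omega

/-- Quotient graphs of `T` have large rank. -/
lemma quotient_edges {β : Type*} [DecidableEq β] {T : Finset X} {o : X} (ho : o ∈ T) (c : X → β)
    (hconn : ∀ x ∈ T, ∃ g : FreeGroup α, Reach T o g ∧ g • o = x)
    {ι : Type*} (h : ι → FreeGroup α) (hreach : ∀ j, Reach T o (h j))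
    (hcl : Subgroup.closure (Set.range h) = MulAction.stabilizer (FreeGroup α) o) (r : ℕ)
    (hmax : ∀ S : Finset (FreeGroup α), MulAction.stabilizer (FreeGroup α) o <
      Subgroup.closure (S : Set (FreeGroup α)) → r + 1 ≤ S.card)
    (hc : ¬ Set.InjOn c (T : Set X)) :
    r + (T.image c).card ≤
      ∑ s : α, ((TS T s).image (fun x => (c x, c (FreeGroup.of s • x)))).card := by
  classical
  obtain ⟨p, F, hpo, hF, hFc, hFp⟩ := exists_spanning ho c hconn
  rw [← card_Ed]
  set S := (Ed T c \ F).image (gen p) with hS
  set L := Subgroup.closure (S : Set (FreeGroup α)) with hL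
  have hgenL : ∀ e ∈ Ed T c, gen p e ∈ L := by
    intro e he
    by_cases heF : e ∈ F
    · rw [hFp e heF]; exact L.one_mem
    · exact Subgroup.subset_closure (mem_coe.mpr (mem_image_of_mem _ (mem_sdiff.mpr ⟨he, heF⟩)))
  have claim1 : ∀ g : FreeGroup α, Reach T o g → (p (c (g • o)))⁻¹ * g ∈ L := by
    intro g hg
    induction hg with
    | one h => rw [one_smul, hpo]; simp [L.one_mem]
    | up g s hg h ih =>
      have he := hgenL _ (mem_Ed (c := c) hg.mem (by rw [← mul_smul]; exact h) :
        (s, c (g • o), c (FreeGroup.of s • g • o)) ∈ Ed T c)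
      have e : (p (c ((FreeGroup.of s * g) • o)))⁻¹ * (FreeGroup.of s * g) =
          gen p (s, c (g • o), c (FreeGroup.of s • g • o)) * ((p (c (g • o)))⁻¹ * g) := by
        unfold gen
        simp only [mul_smul]
        group
      rw [e]
      exact L.mul_mem he ih
    | down g s hg h ih =>
      have hss : FreeGroup.of s • ((FreeGroup.of s)⁻¹ * g) • o = g • o := by
        rw [← mul_smul, mul_inv_cancel_left]
      have he := hgenL _ (mem_Ed (c := c) h (by rw [hss]; exact hg.mem) :
        (s, c (((FreeGroup.of s)⁻¹ * g) • o), c (FreeGroup.of s • ((FreeGroup.of s)⁻¹ * g) • o))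
          ∈ Ed T c)
      rw [hss] at he
      have e : (p (c (((FreeGroup.of s)⁻¹ * g) • o)))⁻¹ * ((FreeGroup.of s)⁻¹ * g) =
          (gen p (s, c (((FreeGroup.of s)⁻¹ * g) • o), c (g • o)))⁻¹ *
            ((p (c (g • o)))⁻¹ * g) := by
        unfold gen
        group
      rw [e]
      exact L.mul_mem (L.inv_mem he) ih
  have hHL : MulAction.stabilizer (FreeGroup α) o ≤ L := by
    rw [← hcl, Subgroup.closure_le]
    rintro _ ⟨j, rfl⟩
    have h1 := claim1 _ (hreach j)
    have h2 : h j • o = o := by
      have : h j ∈ MulAction.stabilizer (FreeGroup α) o := by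
        rw [← hcl]; exact Subgroup.subset_closure ⟨j, rfl⟩
      exact this
    rw [h2, hpo] at h1
    simpa using h1
  have hne : MulAction.stabilizer (FreeGroup α) o ≠ L := by
    intro heq
    apply hc
    intro x hx y hy hxy
    obtain ⟨g, hg, rfl⟩ := hconn x hx
    obtain ⟨g', hg', rfl⟩ := hconn y hy
    have h1 := claim1 g hg
    have h2 := claim1 g' hg'
    rw [← hxy] at h2
    have h3 : g⁻¹ * g' ∈ L := by
      have := L.mul_mem (L.inv_mem h1) h2
      have e : ((p (c (g • o)))⁻¹ * g)⁻¹ * ((p (c (g • o)))⁻¹ * g') = g⁻¹ * g' := by group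
      rwa [e] at this
    rw [← heq, MulAction.mem_stabilizer_iff, mul_smul, inv_smul_eq_iff] at h3
    exact h3.symm
  have h1 := hmax S (lt_of_le_of_ne hHL hne)
  have h2 : S.card ≤ (Ed T c \ F).card := card_image_le
  rw [card_sdiff_of_subset hF] at h2
  have h3 := card_le_card hF
  omega

end Graph

end Pool.Agent.Lib.MP_eee65c_al
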