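import Pool.Agent.Lib.MP_eee65c_al.Core
import Pool.Agent.Lib.MP_eee65c_al.Edges

/-!
The local inequality for subspaces of `K[X]` supported on a finite connected piece.
-/

namespace Pool.Agent.Lib.MP_eee65c_al

open Finset Module

section Rho

variable (K : Type*) [Field K] {G : Type*} [Group G] {X : Type*} [MulAction G X]

/-- Linearised action. -/
noncomputable def rho : G →* Module.End K (X →₀ K) where
  toFun g := Finsupp.lmapDomain K K (fun x => g • x)
  map_one' := by ext; simp
  map_mul' g h := by ext; simp [mul_smul]

@[simp] lemma rho_single (g : G) (x : X) (c : K) :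
    rho K g (Finsupp.single x c) = Finsupp.single (g • x) c := by
  simp [rho]

lemma rho_inv_rho (g : G) (v : X →₀ K) : rho K g⁻¹ (rho K g v) = v := by
  have : rho K g⁻¹ (rho K g v) = (rho K g⁻¹ * rho K g : Module.End K (X →₀ K)) v := rfl
  rw [this, ← map_mul, inv_mul_cancel, map_one]; rfl

lemma rho_rho_inv (g : G) (v : X →₀ K) : rho K g (rho K g⁻¹ v) = v := by
  have : rho K g (rho K g⁻¹ v) = (rho K g * rho K g⁻¹ : Module.End K (X →₀ K)) v := rfl
  rw [this, ← map_mul, mul_inv_cancel, map_one]; rfl

lemma rho_mul_apply (g h : G) (v : X →₀ K) : rho K (g * h) v = rho K g (rho K h v) := by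
  rw [map_mul]; rfl

lemma rho_injective (g : G) : Function.Injective (rho K g : (X →₀ K) → (X →₀ K)) := by
  intro v w h
  rw [← rho_inv_rho K g v, h, rho_inv_rho]

lemma rho_map_supported (g : G) (S : Set X) :
    (Finsupp.supported K K S).map (rho K g) = Finsupp.supported K K ((fun x => g • x) '' S) :=
  Finsupp.lmapDomain_supported (M := K) (R := K) _ _

lemma rho_mem_supported (g : G) {S S' : Set X} (h : ∀ x ∈ S, g • x ∈ S') {v : X →₀ K}
    (hv : v ∈ Finsupp.supported K K S) : rho K g v ∈ Finsupp.supported K K S' := by
  have h1 : rho K g v ∈ (Finsupp.supported K K S).map (rho K g) := Submodule.mem_map_of_mem hv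
  rw [rho_map_supported] at h1
  exact Finsupp.supported_mono (by rintro _ ⟨x, hx, rfl⟩; exact h x hx) h1

/-- Sum of coefficients. -/
noncomputable def aug : (X →₀ K) →ₗ[K] K := Finsupp.linearCombination K (fun _ => (1 : K))

@[simp] lemma aug_single (x : X) (c : K) : aug K (Finsupp.single x c) = c := by
  simp [aug]

lemma aug_rho (g : G) (v : X →₀ K) : aug K (rho K g v) = aug K v := by
  have : (aug K).comp (rho K g : (X →₀ K) →ₗ[K] (X →₀ K)) = aug K := by
    ext x; simp
  exact LinearMap.congr_fun this v

instance finiteDimensional_supported (T : Finset X) :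
    FiniteDimensional K (Finsupp.supported K K (T : Set X)) := by
  have e := Finsupp.supportedEquivFinsupp (M := K) (R := K) (T : Set X)
  exact Module.Finite.equiv e.symm

lemma finrank_supported (T : Finset X) :
    finrank K (Finsupp.supported K K (T : Set X)) = T.card := by
  rw [(Finsupp.supportedEquivFinsupp (M := K) (R := K) (T : Set X)).finrank_eq]
  simp

lemma finite_of_le {W : Submodule K (X →₀ K)} {T : Finset X}
    (h : W ≤ Finsupp.supported K K (T : Set X)) : FiniteDimensional K W :=
  Submodule.finiteDimensional_of_le h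

end Rho

section S1

set_option linter.unusedSectionVars false

variable (K : Type*) [Field K] {α : Type*} [Fintype α] [DecidableEq α] {X : Type*} [DecidableEq X]
  [MulAction (FreeGroup α) X]

lemma isNull_dim {T : Finset X} (W : Submodule K (X →₀ K))
    (hsingle : ∀ x ∈ T, Finsupp.single x (1 : K) ∉ W) :
    IsNull (fun S : Finset T => (finrank K (W ⊓ Finsupp.supported K K
      ((S.image Subtype.val : Finset X) : Set X) : Submodule K (X →₀ K)) : ℤ)) where
  empty := by
    have : (W ⊓ Finsupp.supported K K (((∅ : Finset T).image Subtype.val : Finset X) : Set X) :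
        Submodule K (X →₀ K)) = ⊥ := by
      rw [image_empty, coe_empty, Finsupp.supported_empty, inf_bot_eq]
    rw [this]; simp
  single x := by
    have : (W ⊓ Finsupp.supported K K ((({x} : Finset T).image Subtype.val : Finset X) : Set X) :
        Submodule K (X →₀ K)) = ⊥ := by
      rw [eq_bot_iff]
      rintro v ⟨hv1, hv2⟩
      rw [SetLike.mem_coe, Finsupp.mem_supported] at hv2
      have hv3 : v = Finsupp.single x.1 (v x.1) := by
        ext y
        by_cases hy : y = x.1
        · rw [hy]; simp
        · rw [Finsupp.single_eq_of_ne hy]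
          by_contra hne
          have := hv2 (Finsupp.mem_support_iff.mpr hne)
          simp at this
          exact hy this
      by_contra hne
      have hc : v x.1 ≠ 0 := by
        intro h0
        rw [h0, Finsupp.single_zero] at hv3
        exact hne (by rw [hv3]; exact Submodule.zero_mem _)
      apply hsingle x.1 x.2
      have : Finsupp.single x.1 (1 : K) = (v x.1)⁻¹ • v := by
        conv_rhs => rw [hv3]
        rw [Finsupp.smul_single, smul_eq_mul, Finsupp.single_eq_same, inv_mul_cancel₀ hc]
      rw [this]
      exact W.smul_mem _ hv1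
    rw [this]; simp
  super A B := by
    set P : Submodule K (X →₀ K) := W ⊓ Finsupp.supported K K
      ((A.image Subtype.val : Finset X) : Set X) with hP
    set Q : Submodule K (X →₀ K) := W ⊓ Finsupp.supported K K
      ((B.image Subtype.val : Finset X) : Set X) with hQ
    have : FiniteDimensional K P := finite_of_le K inf_le_right
    have : FiniteDimensional K Q := finite_of_le K inf_le_right
    have h1 := Submodule.finrank_sup_add_finrank_inf_eq P Q
    have h2 : finrank K (P ⊔ Q : Submodule K (X →₀ K)) ≤ finrank K (W ⊓ Finsupp.supported K K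
      (((A ∪ B).image Subtype.val : Finset X) : Set X) : Submodule K (X →₀ K)) := by
      have : FiniteDimensional K (W ⊓ Finsupp.supported K K
        (((A ∪ B).image Subtype.val : Finset X) : Set X) : Submodule K (X →₀ K)) :=
        finite_of_le K inf_le_right
      apply Submodule.finrank_mono
      refine sup_le (inf_le_inf_left _ (Finsupp.supported_mono ?_))
        (inf_le_inf_left _ (Finsupp.supported_mono ?_))
      · exact_mod_cast image_subset_image subset_union_left
      · exact_mod_cast image_subset_image subset_union_right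
    have h3 : finrank K (P ⊓ Q : Submodule K (X →₀ K)) ≤ finrank K (W ⊓ Finsupp.supported K K
      (((A ∩ B).image Subtype.val : Finset X) : Set X) : Submodule K (X →₀ K)) := by
      have : FiniteDimensional K (W ⊓ Finsupp.supported K K
        (((A ∩ B).image Subtype.val : Finset X) : Set X) : Submodule K (X →₀ K)) :=
        finite_of_le K inf_le_right
      apply Submodule.finrank_mono
      rintro v ⟨⟨hv1, hv2⟩, ⟨_, hv3⟩⟩
      refine ⟨hv1, ?_⟩
      rw [SetLike.mem_coe, Finsupp.mem_supported] at hv2 hv3 ⊢
      intro y hy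
      have h2 := hv2 hy
      have h3 := hv3 hy
      simp only [coe_image, Set.mem_image, mem_coe, Subtype.exists, exists_and_right,
        exists_eq_right, mem_inter] at h2 h3 ⊢
      obtain ⟨h4, h5⟩ := h2
      obtain ⟨_, h6⟩ := h3
      exact ⟨h4, h5, h6⟩
    have := h1 ▸ add_le_add h2 h3
    exact_mod_cast this

/-- The local inequality. -/
theorem s1 {T : Finset X} {o : X} (ho : o ∈ T)
    (hconn : ∀ x ∈ T, ∃ g : FreeGroup α, Reach T o g ∧ g • o = x)
    {ι : Type*} [Fintype ι] (h : ι → FreeGroup α) (hreach : ∀ j, Reach T o (h j))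
    (hcl : Subgroup.closure (Set.range h) = MulAction.stabilizer (FreeGroup α) o)
    (hmax : ∀ S : Finset (FreeGroup α), MulAction.stabilizer (FreeGroup α) o <
      Subgroup.closure (S : Set (FreeGroup α)) → Fintype.card ι + 1 ≤ S.card)
    (W : Submodule K (X →₀ K)) (hWT : W ≤ Finsupp.supported K K (T : Set X))
    (hsingle : ∀ x ∈ T, Finsupp.single x (1 : K) ∉ W)
    (hclosed : ∀ s : α, ∀ v ∈ Finsupp.supported K K (TS T s : Set X),
      (v ∈ W ↔ rho K (FreeGroup.of s) v ∈ W))
    (hne : W ≠ ⊥) :
    ∑ s : α, finrank K (W ⊓ Finsupp.supported K K (TS T s : Set X) : Submodule K (X →₀ K)) + 1 ≤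
      finrank K W := by
  classical
  have hnull := isNull_dim K W hsingle
  have : Nonempty T := ⟨⟨o, ho⟩⟩
  set δ : Finset T → ℤ := fun S : Finset T => (finrank K (W ⊓ Finsupp.supported K K
      ((S.image Subtype.val : Finset X) : Set X) : Submodule K (X →₀ K)) : ℤ) with hδ
  set D : α → Finset T := fun s => univ.filter (fun x => FreeGroup.of s • x.1 ∈ T) with hD
  set σ : α → T → T := fun s x => if hx : FreeGroup.of s • x.1 ∈ T then
    ⟨FreeGroup.of s • x.1, hx⟩ else x with hσ
  have hσv : ∀ s, ∀ x ∈ D s, (σ s x : X) = FreeGroup.of s • x.1 := by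
    intro s x hx
    rw [hD, mem_filter] at hx
    simp only [hσ, dif_pos hx.2]
  have hDim : ∀ s, (D s).image Subtype.val = TS T s := by
    intro s
    ext x
    simp only [hD, mem_image, mem_filter, mem_univ, true_and, Subtype.exists, exists_and_left,
      exists_prop, exists_eq_right_right, mem_TS]
    tauto
  have hDcard : ∀ s, (D s).card = (TS T s).card := by
    intro s
    rw [← hDim, card_image_of_injective _ Subtype.val_injective]
  have hinj : ∀ s, Set.InjOn (σ s) (D s : Set T) := by
    intro s x hx y hy hxy
    have := congrArg Subtype.val hxy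
    rw [hσv s x hx, hσv s y hy] at this
    exact Subtype.ext (MulAction.injective _ this)
  have hinv : ∀ s, ∀ S ⊆ D s, δ (S.image (σ s)) = δ S := by
    intro s S hS
    have e1 : (((S.image (σ s)).image Subtype.val : Finset X) : Set X) =
        (fun x => FreeGroup.of s • x) '' ((S.image Subtype.val : Finset X) : Set X) := by
      ext y
      simp only [coe_image, Set.mem_image, mem_coe, exists_exists_and_eq_and]
      constructor
      · rintro ⟨x, hx, rfl⟩; exact ⟨x, hx, (hσv s x (hS hx)).symm⟩
      · rintro ⟨x, hx, rfl⟩; exact ⟨x, hx, hσv s x (hS hx)⟩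
    have hSsub : ((S.image Subtype.val : Finset X) : Set X) ⊆ (TS T s : Set X) := by
      rw [← hDim]; exact_mod_cast image_subset_image hS
    have e2 : (W ⊓ Finsupp.supported K K (((S.image (σ s)).image Subtype.val : Finset X) : Set X) :
        Submodule K (X →₀ K)) = (W ⊓ Finsupp.supported K K
          ((S.image Subtype.val : Finset X) : Set X)).map (rho K (FreeGroup.of s)) := by
      rw [e1, ← rho_map_supported]
      ext v
      constructor
      · rintro ⟨hv1, ⟨w, hw, rfl⟩⟩
        refine ⟨w, ⟨?_, hw⟩, rfl⟩
        exact (hclosed s w (Finsupp.supported_mono hSsub hw)).mpr hv1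
      · rintro ⟨w, ⟨hw1, hw2⟩, rfl⟩
        exact ⟨(hclosed s w (Finsupp.supported_mono hSsub hw2)).mp hw1, ⟨w, hw2, rfl⟩⟩
    simp only [hδ]
    rw [e2]
    have := (Submodule.equivMapOfInjective (rho K (FreeGroup.of s))
      (rho_injective K (FreeGroup.of s)) (W ⊓ Finsupp.supported K K
          ((S.image Subtype.val : Finset X) : Set X))).finrank_eq
    exact_mod_cast this.symm
  have hpart : ∀ c : T → T, ¬ Function.Injective c →
      ∑ s, (((D s).card : ℤ) - (((D s).image (fun x => (c x, c (σ s x)))).card : ℤ)) + 1 ≤
        (Fintype.card T : ℤ) - ((univ.image c).card : ℤ) := by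
    intro c hc
    set c' : X → T := fun x => if hx : x ∈ T then c ⟨x, hx⟩ else ⟨o, ho⟩ with hc'
    have hc'v : ∀ x : T, c' x.1 = c x := by
      intro x; simp only [hc', dif_pos x.2]
    have hninj : ¬ Set.InjOn c' (T : Set X) := by
      intro hi
      apply hc
      intro x y hxy
      apply Subtype.ext
      apply hi x.2 y.2
      rw [hc'v, hc'v, hxy]
    have q1 := quotient_edges ho c' hconn h hreach hcl (Fintype.card ι) hmax hninj
    have q2 := edges_le ho (fun x hx => (hconn x hx).imp (fun g hg => hg.2)) h hcl
    have e1 : T.image c' = univ.image c := by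
      ext y
      simp only [mem_image, mem_univ, true_and]
      constructor
      · rintro ⟨x, hx, rfl⟩; exact ⟨⟨x, hx⟩, (hc'v _).symm⟩
      · rintro ⟨x, rfl⟩; exact ⟨x.1, x.2, hc'v _⟩
    have e2 : ∀ s, (TS T s).image (fun x => (c' x, c' (FreeGroup.of s • x))) =
        (D s).image (fun x => (c x, c (σ s x))) := by
      intro s
      rw [← hDim, image_image]
      apply image_congr
      intro x hx
      simp only [Function.comp_apply, hc'v]
      rw [← hσv s x hx, hc'v]
    rw [e1] at q1
    simp only [e2] at q1
    rw [sum_sub_distrib]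
    have e3 : (∑ s, ((D s).card : ℤ)) = ((∑ s : α, (TS T s).card : ℕ) : ℤ) := by
      push_cast
      exact sum_congr rfl (fun s _ => by rw [hDcard])
    have e4 : (∑ s, (((D s).image (fun x => (c x, c (σ s x)))).card : ℤ)) =
        ((∑ s : α, ((D s).image (fun x => (c x, c (σ s x)))).card : ℕ) : ℤ) := by
      push_cast; rfl
    rw [e3, e4, Fintype.card_coe]
    have q1' : (Fintype.card ι : ℤ) + ((univ.image c).card : ℤ) ≤
      ((∑ s : α, ((D s).image (fun x => (c x, c (σ s x)))).card : ℕ) : ℤ) := by exact_mod_cast q1
    have q2' : ((∑ s : α, (TS T s).card : ℕ) : ℤ) + 1 ≤ (T.card : ℤ) + (Fintype.card ι : ℤ) := by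
      exact_mod_cast q2
    linarith
  have huniv : (W ⊓ Finsupp.supported K K (((univ : Finset T).image Subtype.val : Finset X) : Set X)
      : Submodule K (X →₀ K)) = W := by
    rw [inf_eq_left]
    have : ((univ : Finset T).image Subtype.val : Finset X) = T := by
      ext x; simp
    rw [this]; exact hWT
  have : FiniteDimensional K W := finite_of_le K hWT
  have hpos : 1 ≤ δ univ := by
    simp only [hδ]
    rw [huniv]
    have : 1 ≤ finrank K W := Submodule.one_le_finrank_iff.mpr hne
    exact_mod_cast this
  have hfin := core hnull D σ hinj hinv hpart hpos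
  have hδu : δ univ = (finrank K W : ℤ) := by
    simp only [hδ]; rw [huniv]
  have hδD : ∀ s, δ (D s) = (finrank K (W ⊓ Finsupp.supported K K (TS T s : Set X) :
      Submodule K (X →₀ K)) : ℤ) := by
    intro s; simp only [hδ]; rw [hDim]
  rw [hδu, sum_congr rfl (fun s _ => hδD s)] at hfin
  exact_mod_cast hfin

end S1

end Pool.Agent.Lib.MP_eee65c_al
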