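import Pool.Agent.Lib.MP_eee65c_al.TorsionFree

/-!
Elements of `K[X]` that generate the module of the base point are monomial.
-/

namespace Pool.Agent.Lib.MP_eee65c_al

open Finset Module

section Levels

variable (K : Type*) [Field K] {G : Type*} [Group G] {X : Type*} [MulAction G X]

lemma cl_add (m m' : X →₀ K) (a : G →₀ K) : cl K (m + m') a = cl K m a + cl K m' a := by
  simp [cl, Finsupp.linearCombination_apply, Finsupp.sum_add]

lemma cl_sum_apply (m : X →₀ K) (a : G →₀ K) : cl K m a = a.sum (fun g c => c • rho K g m) := rfl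

lemma cl_mem_supported {S : Set G} {R Z : Set X} (h : ∀ g ∈ S, ∀ x ∈ R, g • x ∈ Z)
    {a : G →₀ K} (ha : a ∈ Finsupp.supported K K S) {m : X →₀ K}
    (hm : m ∈ Finsupp.supported K K R) : cl K m a ∈ Finsupp.supported K K Z := by
  have h1 := map_cl_le K m S (Finsupp.supported K K Z)
    (fun g hg => rho_mem_supported K g (fun x hx => h g hg x hx) hm)
  exact h1 (Submodule.mem_map_of_mem ha)

lemma eq_zero_of_disjoint {Y : Type*} {Z Z' : Set Y} (h : Disjoint Z Z') {v : Y →₀ K}
    (h1 : v ∈ Finsupp.supported K K Z) (h2 : v ∈ Finsupp.supported K K Z') : v = 0 := by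
  have : v ∈ Finsupp.supported K K Z ⊓ Finsupp.supported K K Z' := ⟨h1, h2⟩
  rw [← Finsupp.supported_inter, h.inter_eq, Finsupp.supported_empty] at this
  exact this

lemma mem_supported_support {Y : Type*} (v : Y →₀ K) :
    v ∈ Finsupp.supported K K (v.support : Set Y) := by
  rw [Finsupp.mem_supported]

lemma filter_mem_supported {Y : Type*} (v : Y →₀ K) (P : Y → Prop) [DecidablePred P] :
    v.filter P ∈ Finsupp.supported K K {y | y ∈ v.support ∧ P y} := by
  rw [Finsupp.mem_supported]
  intro y hy
  rw [mem_coe, Finsupp.support_filter, Finset.mem_filter] at hy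
  exact hy

/-- Extremal components multiply to the extremal component. -/
lemma top_component (lG : G → ℚ) (lX : X → ℚ) {a : G →₀ K} {m : X →₀ K}
    (hl : ∀ g ∈ a.support, ∀ x ∈ m.support, lX (g • x) = lG g + lX x) (p q : ℚ)
    (hp : ∀ g ∈ a.support, lG g ≤ p) (hq : ∀ x ∈ m.support, lX x ≤ q)
    (h0 : ∀ x ∈ (cl K m a).support, lX x ≠ p + q) :
    cl K (m.filter (fun x => lX x = q)) (a.filter (fun g => lG g = p)) = 0 := by
  classical
  set ap := a.filter (fun g => lG g = p) with hap
  set a' := a.filter (fun g => ¬ lG g = p) with ha'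
  set mq := m.filter (fun x => lX x = q) with hmq
  set m' := m.filter (fun x => ¬ lX x = q) with hm'
  have ea : ap + a' = a := Finsupp.filter_add_filter_not a _
  have em : mq + m' = m := Finsupp.filter_add_filter_not m _
  have e1 : cl K m a = cl K mq ap + cl K m' ap + cl K m a' := by
    conv_lhs => rw [← ea]
    rw [map_add]
    congr 1
    conv_lhs => rw [← em]
    rw [cl_add]
  have s1 : cl K mq ap ∈ Finsupp.supported K K {x | lX x = p + q} := by
    refine cl_mem_supported K ?_ (filter_mem_supported K a _) (filter_mem_supported K m _)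
    rintro g ⟨hg1, hg2⟩ x ⟨hx1, hx2⟩
    rw [Set.mem_ofPred_eq, hl g hg1 x hx1, hg2, hx2]
  have s2 : cl K m' ap ∈ Finsupp.supported K K {x | lX x ≠ p + q} := by
    refine cl_mem_supported K ?_ (filter_mem_supported K a _) (filter_mem_supported K m _)
    rintro g ⟨hg1, hg2⟩ x ⟨hx1, hx2⟩
    rw [Set.mem_ofPred_eq, hl g hg1 x hx1, hg2]
    have := lt_of_le_of_ne (hq x hx1) hx2
    exact ne_of_lt (by linarith)
  have s3 : cl K m a' ∈ Finsupp.supported K K {x | lX x ≠ p + q} := by
    refine cl_mem_supported K ?_ (filter_mem_supported K a _) (mem_supported_support K m)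
    rintro g ⟨hg1, hg2⟩ x hx1
    rw [Set.mem_ofPred_eq, hl g hg1 x hx1]
    have h1 := lt_of_le_of_ne (hp g hg1) hg2
    have h2 := hq x hx1
    exact ne_of_lt (by linarith)
  have s4 : cl K m a ∈ Finsupp.supported K K {x | lX x ≠ p + q} := by
    rw [Finsupp.mem_supported]
    exact fun x hx => h0 x hx
  have s5 : cl K mq ap ∈ Finsupp.supported K K {x | lX x ≠ p + q} := by
    have : cl K mq ap = cl K m a - cl K m' ap - cl K m a' := by rw [e1]; abel
    rw [this]
    exact Submodule.sub_mem _ (Submodule.sub_mem _ s4 s2) s3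
  refine eq_zero_of_disjoint K ?_ s1 s5
  rw [Set.disjoint_left]
  intro x hx1 hx2
  exact hx2 hx1

/-- Pushforward of convolutions. -/
lemma push_cl {G' X' : Type*} [Group G'] [MulAction G' X'] (lG : G → G') (lX : X → X')
    {a : G →₀ K} {m : X →₀ K}
    (hl : ∀ g ∈ a.support, ∀ x ∈ m.support, lX (g • x) = lG g • lX x) :
    Finsupp.mapDomain lX (cl K m a) = cl K (Finsupp.mapDomain lX m) (Finsupp.mapDomain lG a) := by
  have e1 : ∀ g ∈ a.support, Finsupp.mapDomain lX (rho K g m) =
      rho K (lG g) (Finsupp.mapDomain lX m) := by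
    intro g hg
    change Finsupp.mapDomain lX (Finsupp.mapDomain (fun x => g • x) m) =
      Finsupp.mapDomain (fun x => lG g • x) (Finsupp.mapDomain lX m)
    rw [← Finsupp.mapDomain_comp, ← Finsupp.mapDomain_comp]
    apply Finsupp.mapDomain_congr
    intro x hx
    exact hl g hg x hx
  rw [cl_sum_apply, cl_sum_apply, Finsupp.sum_mapDomain_index (by simp)
    (fun _ _ _ => add_smul _ _ _)]
  change Finsupp.lmapDomain K K lX (a.sum fun g c => c • rho K g m) = _
  rw [map_finsuppSum]
  apply Finsupp.sum_congr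
  intro g hg
  rw [map_smul]
  congr 1
  exact e1 g hg

/-- Units of the group algebra of the rationals are homogeneous. -/
lemma rat_homog (P Q : Multiplicative ℚ →₀ K) (h : cl K P Q = Finsupp.single 1 1)
    {x y : Multiplicative ℚ} (hx : x ∈ P.support) (hy : y ∈ P.support) : x = y := by
  classical
  have hP : P.support.Nonempty := ⟨x, hx⟩
  have hQ : Q.support.Nonempty := by
    rw [Finsupp.support_nonempty_iff]
    intro hQ
    rw [hQ, map_zero] at h
    have := congrArg (fun f => f 1) h
    simp at this
  have key : ∀ l : ℚ → ℚ, (∀ s t, l (s + t) = l s + l t) → Function.Injective l →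
      ∃ p q : ℚ, p + q = 0 ∧ (∀ g ∈ Q.support, l g.toAdd ≤ p) ∧
        (∀ z ∈ P.support, l z.toAdd ≤ q) ∧ (∃ g ∈ Q.support, l g.toAdd = p) := by
    intro l hl hli
    obtain ⟨g, hg, hgmax⟩ := Finset.exists_max_image Q.support (fun z => l z.toAdd) hQ
    obtain ⟨z, hz, hzmax⟩ := Finset.exists_max_image P.support (fun z => l z.toAdd) hP
    refine ⟨l g.toAdd, l z.toAdd, ?_, hgmax, hzmax, g, hg, rfl⟩
    by_contra hne
    have h1 := top_component K (fun w : Multiplicative ℚ => l w.toAdd)
      (fun w : Multiplicative ℚ => l w.toAdd) (a := Q) (m := P)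
      (fun u _ v _ => by rw [smul_eq_mul, toAdd_mul, hl]) (l g.toAdd) (l z.toAdd) hgmax hzmax
      (by
        intro w hw
        rw [h] at hw
        have : w = 1 := by
          have := Finsupp.support_single_subset hw
          simpa using this
        rw [this, toAdd_one]
        intro h0
        apply hne
        rw [← h0]
        have := hl 0 0
        simp only [add_zero] at this
        linarith)
    have e1 : P.filter (fun w => l w.toAdd = l z.toAdd) = Finsupp.single z (P z) := by
      ext w
      by_cases hw : w = z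
      · rw [hw, Finsupp.filter_apply_pos (fun w : Multiplicative ℚ => l w.toAdd = l z.toAdd) P rfl,
          Finsupp.single_eq_same]
      · rw [Finsupp.filter_apply_neg (fun w : Multiplicative ℚ => l w.toAdd = l z.toAdd) P
          (fun h => hw (by simpa using hli h)), Finsupp.single_eq_of_ne hw]
    have e2 : Q.filter (fun w => l w.toAdd = l g.toAdd) = Finsupp.single g (Q g) := by
      ext w
      by_cases hw : w = g
      · rw [hw, Finsupp.filter_apply_pos (fun w : Multiplicative ℚ => l w.toAdd = l g.toAdd) Q rfl,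
          Finsupp.single_eq_same]
      · rw [Finsupp.filter_apply_neg (fun w : Multiplicative ℚ => l w.toAdd = l g.toAdd) Q
          (fun h => hw (by simpa using hli h)), Finsupp.single_eq_of_ne hw]
    rw [e1, e2, cl_single, rho_single, Finsupp.smul_single, Finsupp.single_eq_zero,
      smul_eq_mul, mul_eq_zero] at h1
    rcases h1 with h1 | h1
    · exact (Finsupp.mem_support_iff.mp hg) h1
    · exact (Finsupp.mem_support_iff.mp hz) h1
  obtain ⟨p, q, hpq, hp, hq, g, hg, hgp⟩ := key id (fun _ _ => rfl) Function.injective_id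
  obtain ⟨p', q', hpq', hp', hq', g', hg', hgp'⟩ := key (fun s => -s) (fun _ _ => by ring)
    neg_injective
  have t1 := hp' g hg
  have t2 := hq x hx
  have t3 := hq' x hx
  have t4 := hq y hy
  have t5 := hq' y hy
  simp only [id] at *
  have t6 : x.toAdd = y.toAdd := by linarith
  simpa using t6

lemma aug_filter (lX : X → Multiplicative ℚ) (m : X →₀ K) (q : Multiplicative ℚ)
    (P : X → Prop) [DecidablePred P] (hP : ∀ x, P x ↔ lX x = q) :
    Finsupp.mapDomain lX m q = aug K (m.filter P) := by
  classical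
  induction m using Finsupp.induction_linear with
  | zero => rw [Finsupp.mapDomain_zero, Finsupp.filter_zero, map_zero]; rfl
  | add f g hf hg =>
    rw [Finsupp.mapDomain_add, Finsupp.filter_add, map_add, Finsupp.add_apply, hf, hg]
  | single x c =>
    rw [Finsupp.mapDomain_single]
    by_cases hx : lX x = q
    · rw [Finsupp.filter_single_of_pos P ((hP x).mpr hx), aug_single, hx,
        Finsupp.single_eq_same]
    · rw [Finsupp.filter_single_of_neg P (fun h => hx ((hP x).mp h)), map_zero,
        Finsupp.single_eq_of_ne (Ne.symm hx)]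

end Levels

section Free

set_option linter.unusedSectionVars false

variable (K : Type*) [Field K] {α : Type*} [Fintype α] [DecidableEq α] {X : Type*} [DecidableEq X]
  [MulAction (FreeGroup α) X]

lemma rho_ne_self {h : FreeGroup α} (hh : h ≠ 1) {a : FreeGroup α →₀ K} (ha : a ≠ 0) :
    rho K h a ≠ a := by
  intro heq
  obtain ⟨g, hg⟩ := Finsupp.support_nonempty_iff.mpr ha
  have happ : ∀ x : FreeGroup α, a (h * x) = a x := by
    intro x
    conv_lhs => rw [← heq]
    have : (rho K h a) (h • x) = a x :=
      Finsupp.mapDomain_apply (MulAction.injective h) a x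
    exact this
  have hmem : ∀ n : ℕ, a (h ^ n * g) = a g := by
    intro n
    induction n with
    | zero => simp
    | succ n ih => rw [pow_succ', mul_assoc, happ, ih]
  have hinf : ¬ Function.Injective (fun n : ℕ => (⟨h ^ n * g, by
      rw [Finsupp.mem_support_iff, hmem n]; exact Finsupp.mem_support_iff.mp hg⟩ : a.support)) :=
    not_injective_infinite_finite _
  apply hinf
  intro i j hij
  have h1 : h ^ i * g = h ^ j * g := congrArg Subtype.val hij
  have h2 : h ^ i = h ^ j := mul_right_cancel h1
  by_contra hne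
  apply hh
  rcases lt_or_gt_of_ne hne with hlt | hlt
  · have h3 : h ^ (j - i) = 1 := by
      have : h ^ j = h ^ (j - i) * h ^ i := by rw [← pow_add, Nat.sub_add_cancel hlt.le]
      rw [this] at h2
      exact mul_right_cancel (b := h ^ i) (by rw [← h2, one_mul])
    exact pow_left_injective (n := j - i) (by omega) (by simpa using h3)
  · have h3 : h ^ (i - j) = 1 := by
      have : h ^ i = h ^ (i - j) * h ^ j := by rw [← pow_add, Nat.sub_add_cancel hlt.le]
      rw [this] at h2
      exact mul_right_cancel (b := h ^ j) (by rw [h2, one_mul])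
    exact pow_left_injective (n := i - j) (by omega) (by simpa using h3)

/-- Lemma: the extremal components of a torsion element have nonzero augmentation. -/
lemma aug_top_ne_zero {o : X} (htrans : ∀ x : X, ∃ g : FreeGroup α, g • o = x)
    {ι : Type*} [Fintype ι] (h : ι → FreeGroup α)
    (hcl : Subgroup.closure (Set.range h) = MulAction.stabilizer (FreeGroup α) o)
    (hmax : ∀ S : Finset (FreeGroup α), MulAction.stabilizer (FreeGroup α) o <
      Subgroup.closure (S : Set (FreeGroup α)) → Fintype.card ι + 1 ≤ S.card)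
    (m : X →₀ K) (hm : m ≠ 0) (b : FreeGroup α →₀ K) (hb : b ≠ 0) (hbm : cl K m b = 0)
    (lG : FreeGroup α → ℚ) (lX : X → ℚ)
    (hl : ∀ g ∈ b.support, ∀ x ∈ m.support, lX (g • x) = lG g + lX x) :
    ∃ q : ℚ, (∀ x ∈ m.support, lX x ≤ q) ∧ aug K (m.filter (fun x => lX x = q)) ≠ 0 := by
  obtain ⟨g, hg, hgmax⟩ := Finset.exists_max_image b.support lG
    (Finsupp.support_nonempty_iff.mpr hb)
  obtain ⟨z, hz, hzmax⟩ := Finset.exists_max_image m.support lX
    (Finsupp.support_nonempty_iff.mpr hm)
  refine ⟨lX z, hzmax, ?_⟩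
  intro h0
  have h1 := top_component K lG lX hl (lG g) (lX z) hgmax hzmax
    (by intro x hx; rw [hbm] at hx; simp at hx)
  have h2 := torsion_free K htrans h hcl hmax _ h0 _ ?_ h1
  · have := congrArg (fun f => f z) h2
    rw [Finsupp.filter_apply_pos (fun x => lX x = lX z) m rfl] at this
    exact (Finsupp.mem_support_iff.mp hz) this
  · intro h3
    have := congrArg (fun f => f g) h3
    rw [Finsupp.filter_apply_pos (fun x => lG x = lG g) b rfl] at this
    exact (Finsupp.mem_support_iff.mp hg) this

/-- Monomial theorem, base point in the support. -/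
theorem monomial_aux {o : X} (htrans : ∀ x : X, ∃ g : FreeGroup α, g • o = x)
    {ι : Type*} [Fintype ι] (h : ι → FreeGroup α)
    (hcl : Subgroup.closure (Set.range h) = MulAction.stabilizer (FreeGroup α) o)
    (hmax : ∀ S : Finset (FreeGroup α), MulAction.stabilizer (FreeGroup α) o <
      Subgroup.closure (S : Set (FreeGroup α)) → Fintype.card ι + 1 ≤ S.card)
    (hH : MulAction.stabilizer (FreeGroup α) o ≠ ⊥)
    (hphi : ∀ U : Subgroup (FreeGroup α), MulAction.stabilizer (FreeGroup α) o < U →
      ∃ φ : U →* Multiplicative ℚ, φ ≠ 1 ∧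
        ∀ u : U, (u : FreeGroup α) ∈ MulAction.stabilizer (FreeGroup α) o → φ u = 1)
    (m : X →₀ K) (a : FreeGroup α →₀ K) (hma : cl K m a = Finsupp.single o 1)
    (hom : o ∈ m.support) : m = Finsupp.single o (m o) := by
  classical
  by_contra hcon
  choose p hp using htrans
  set H := MulAction.stabilizer (FreeGroup α) o with hHdef
  set U : Subgroup (FreeGroup α) := H ⊔ Subgroup.closure (m.support.image p : Set (FreeGroup α))
    with hU
  have hpU : ∀ x ∈ m.support, p x ∈ U := fun x hx =>
    (le_sup_right : _ ≤ U) (Subgroup.subset_closure (mem_coe.mpr (mem_image_of_mem _ hx)))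
  have hHU : H < U := by
    refine lt_of_le_of_ne le_sup_left ?_
    intro heq
    apply hcon
    ext x
    by_cases hx : x = o
    · rw [hx, Finsupp.single_eq_same]
    · rw [Finsupp.single_eq_of_ne hx]
      by_contra hne
      have hxs := Finsupp.mem_support_iff.mpr hne
      have h1 := hpU x hxs
      rw [← heq, hHdef, MulAction.mem_stabilizer_iff, hp] at h1
      exact hx h1
  obtain ⟨φ, hφ1, hφH⟩ := hphi U hHU
  -- level functions
  set LG : FreeGroup α → Multiplicative ℚ := fun g => if hg : g ∈ U then φ ⟨g, hg⟩ else 1 with hLG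
  have LGv : ∀ g (hg : g ∈ U), LG g = φ ⟨g, hg⟩ := fun g hg => by simp only [hLG, dif_pos hg]
  have LGmul : ∀ g ∈ U, ∀ g' ∈ U, LG (g * g') = LG g * LG g' := by
    intro g hg g' hg'
    rw [LGv g hg, LGv g' hg', LGv _ (U.mul_mem hg hg'), ← map_mul]; rfl
  have LGH : ∀ g ∈ H, LG g = 1 := fun g hg => by
    rw [LGv g (hHU.le hg)]; exact hφH _ hg
  set LX : X → Multiplicative ℚ := fun x => LG (p x) with hLX
  have hYU : ∀ u ∈ U, p (u • o) ∈ U := by
    intro u hu
    have : u⁻¹ * p (u • o) ∈ H := by
      rw [hHdef, MulAction.mem_stabilizer_iff, mul_smul, hp, inv_smul_smul]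
    have h2 := U.mul_mem hu (hHU.le this)
    rwa [mul_inv_cancel_left] at h2
  have LXu : ∀ u ∈ U, LX (u • o) = LG u := by
    intro u hu
    have h1 : u⁻¹ * p (u • o) ∈ H := by
      rw [hHdef, MulAction.mem_stabilizer_iff, mul_smul, hp, inv_smul_smul]
    have h2 := LGmul u hu _ (hHU.le h1)
    rw [mul_inv_cancel_left, LGH _ h1, mul_one] at h2
    exact h2
  have LXsm : ∀ g ∈ U, ∀ x, p x ∈ U → LX (g • x) = LG g * LX x := by
    intro g hg x hx
    have : g • x = (g * p x) • o := by rw [mul_smul, hp]
    rw [this, LXu _ (U.mul_mem hg hx), LGmul g hg _ hx]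
  -- restriction to U
  set aU := a.filter (fun g => g ∈ U) with haU
  set aV := a.filter (fun g => ¬ g ∈ U) with haV
  have haUs : ∀ g ∈ aU.support, g ∈ U := by
    intro g hg
    rw [haU, Finsupp.support_filter, Finset.mem_filter] at hg
    exact hg.2
  have hmaU : cl K m aU = Finsupp.single o 1 := by
    have e : cl K m aU - Finsupp.single o 1 = - cl K m aV := by
      have e1 : aU + aV = a := Finsupp.filter_add_filter_not a _
      rw [← hma, ← e1, map_add]; abel
    have s1 : cl K m aU - Finsupp.single o 1 ∈ Finsupp.supported K K {x | p x ∈ U} := by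
      apply Submodule.sub_mem
      · refine cl_mem_supported K ?_ (filter_mem_supported K a _) (mem_supported_support K m)
        rintro g ⟨_, hg⟩ x hx
        rw [Set.mem_ofPred_eq]
        have : g • x = (g * p x) • o := by rw [mul_smul, hp]
        rw [this]
        exact hYU _ (U.mul_mem hg (hpU x hx))
      · rw [Finsupp.mem_supported]
        refine (Finset.coe_subset.mpr Finsupp.support_single_subset).trans ?_
        intro x hx
        rw [coe_singleton, Set.mem_singleton_iff] at hx
        rw [Set.mem_ofPred_eq, hx]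
        have := hYU 1 U.one_mem
        rwa [one_smul] at this
    have s2 : cl K m aU - Finsupp.single o 1 ∈ Finsupp.supported K K {x | ¬ p x ∈ U} := by
      rw [e]
      apply Submodule.neg_mem
      refine cl_mem_supported K ?_ (filter_mem_supported K a _) (mem_supported_support K m)
      rintro g ⟨_, hg⟩ x hx
      rw [Set.mem_ofPred_eq]
      intro hgx
      apply hg
      have h1 : (p (g • x))⁻¹ * (g * p x) ∈ H := by
        rw [hHdef, MulAction.mem_stabilizer_iff, mul_smul, mul_smul, hp, inv_smul_eq_iff, hp]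
      have h2 := U.mul_mem (U.mul_mem hgx (hHU.le h1)) (U.inv_mem (hpU x hx))
      have e2 : p (g • x) * ((p (g • x))⁻¹ * (g * p x)) * (p x)⁻¹ = g := by group
      rwa [e2] at h2
    have := eq_zero_of_disjoint K (by
      rw [Set.disjoint_left]; intro x hx1 hx2; exact hx2 hx1) s1 s2
    exact sub_eq_zero.mp this
  have haU0 : aU ≠ 0 := by
    intro h0
    rw [h0, map_zero] at hmaU
    have := congrArg (fun f => f o) hmaU
    simp at this
  have hm0 : m ≠ 0 := by
    intro h0
    rw [h0] at hom
    simp at hom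
  -- the annihilator
  obtain ⟨k, hkH, hk1⟩ : ∃ k : FreeGroup α, k ∈ H ∧ k ≠ 1 := by
    by_contra hno
    push Not at hno
    apply hH
    rw [eq_bot_iff]
    intro k hk
    exact Subgroup.mem_bot.mpr (hno k hk)
  set b := rho K k aU - aU with hbdef
  have hb0 : b ≠ 0 := fun h0 => rho_ne_self K hk1 haU0 (sub_eq_zero.mp h0)
  have hbm : cl K m b = 0 := by
    rw [hbdef, map_sub, cl_rho, hmaU, rho_single, MulAction.mem_stabilizer_iff.mp hkH, sub_self]
  have hbU : ∀ g ∈ b.support, g ∈ U := by
    have : b ∈ Finsupp.supported K K (U : Set (FreeGroup α)) := by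
      have h1 : aU ∈ Finsupp.supported K K (U : Set (FreeGroup α)) := by
        rw [Finsupp.mem_supported]; exact fun g hg => haUs g hg
      apply Submodule.sub_mem _ _ h1
      exact rho_mem_supported K _ (fun x hx => U.mul_mem (hHU.le hkH) hx) h1
    rw [Finsupp.mem_supported] at this
    exact fun g hg => this hg
  obtain ⟨q, hq, hqa⟩ := aug_top_ne_zero K (fun x => ⟨p x, hp x⟩) h hcl hmax m hm0 b hb0 hbm
    (fun g => (LG g).toAdd) (fun x => (LX x).toAdd)
    (by intro g hg x hx; rw [LXsm g (hbU g hg) x (hpU x hx), toAdd_mul])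
  obtain ⟨q', hq', hqa'⟩ := aug_top_ne_zero K (fun x => ⟨p x, hp x⟩) h hcl hmax m hm0 b hb0 hbm
    (fun g => -(LG g).toAdd) (fun x => -(LX x).toAdd)
    (by intro g hg x hx; rw [LXsm g (hbU g hg) x (hpU x hx), toAdd_mul]; ring)
  -- pushforward
  have hpush := push_cl K LG LX (a := aU) (m := m)
    (by intro g hg x hx; rw [smul_eq_mul]; exact LXsm g (haUs g hg) x (hpU x hx))
  have hLXo : LX o = 1 := by
    have := LXu 1 U.one_mem
    rw [one_smul, LGH 1 H.one_mem] at this
    exact this
  rw [hmaU, Finsupp.mapDomain_single, hLXo] at hpush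
  have hsame := rat_homog K _ _ hpush.symm (x := Multiplicative.ofAdd q)
    (y := Multiplicative.ofAdd (-q')) ?_ ?_
  · have hqq : q = -q' := Multiplicative.ofAdd.injective hsame
    have hlev : ∀ x ∈ m.support, (LX x).toAdd = q := by
      intro x hx
      have h1 := hq x hx
      have h2 := hq' x hx
      linarith
    have hq0 : q = 0 := by rw [← hlev o hom, hLXo]; rfl
    apply hφ1
    have hle : H ⊔ Subgroup.closure (m.support.image p : Set (FreeGroup α)) ≤
        (φ.ker).map U.subtype := by
      apply sup_le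
      · intro g hg
        exact ⟨⟨g, hHU.le hg⟩, hφH _ hg, rfl⟩
      · rw [Subgroup.closure_le]
        intro g hg
        obtain ⟨x, hx, rfl⟩ := mem_image.mp (mem_coe.mp hg)
        refine ⟨⟨p x, hpU x hx⟩, ?_, rfl⟩
        rw [SetLike.mem_coe, MonoidHom.mem_ker, ← LGv]
        have := hlev x hx
        rw [hq0] at this
        exact this
    ext u
    obtain ⟨v, hv, hvu⟩ := hle u.2
    have : v = u := Subtype.ext hvu
    rw [← this, MonoidHom.one_apply]
    rw [MonoidHom.mem_ker.mp hv]
  · rw [Finsupp.mem_support_iff, aug_filter K LX m _ (fun x => (LX x).toAdd = q)]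
    · exact hqa
    · intro x
      constructor
      · intro hx; rw [← hx]; rfl
      · intro hx; rw [hx]; rfl
  · rw [Finsupp.mem_support_iff, aug_filter K LX m _ (fun x => -(LX x).toAdd = q')]
    · exact hqa'
    · intro x
      constructor
      · intro hx; rw [← hx, neg_neg]; rfl
      · intro hx; rw [hx, toAdd_ofAdd, neg_neg]

lemma cl_translate (m : X →₀ K) (a : FreeGroup α →₀ K) (g₀ : FreeGroup α) :
    cl K (rho K g₀⁻¹ m) (Finsupp.mapDomain (fun g => g * g₀) a) = cl K m a := by
  rw [cl_sum_apply, cl_sum_apply, Finsupp.sum_mapDomain_index (by simp)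
    (fun _ _ _ => add_smul _ _ _)]
  apply Finsupp.sum_congr
  intro g _
  rw [← rho_mul_apply, mul_inv_cancel_right]

/-- Monomial theorem. -/
theorem monomial {o : X} (htrans : ∀ x : X, ∃ g : FreeGroup α, g • o = x)
    {ι : Type*} [Fintype ι] (h : ι → FreeGroup α)
    (hcl : Subgroup.closure (Set.range h) = MulAction.stabilizer (FreeGroup α) o)
    (hmax : ∀ S : Finset (FreeGroup α), MulAction.stabilizer (FreeGroup α) o <
      Subgroup.closure (S : Set (FreeGroup α)) → Fintype.card ι + 1 ≤ S.card)
    (hH : MulAction.stabilizer (FreeGroup α) o ≠ ⊥)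
    (hphi : ∀ U : Subgroup (FreeGroup α), MulAction.stabilizer (FreeGroup α) o < U →
      ∃ φ : U →* Multiplicative ℚ, φ ≠ 1 ∧
        ∀ u : U, (u : FreeGroup α) ∈ MulAction.stabilizer (FreeGroup α) o → φ u = 1)
    (m : X →₀ K) (a : FreeGroup α →₀ K) (hma : cl K m a = Finsupp.single o 1) :
    ∃ (g : FreeGroup α) (c : K), c ≠ 0 ∧ m = Finsupp.single (g • o) c := by
  classical
  have hm0 : m ≠ 0 := by
    intro h0
    have e : cl K (0 : X →₀ K) a = 0 := by
      rw [cl_sum_apply]
      apply Finset.sum_eq_zero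
      intro g _
      simp
    rw [h0, e] at hma
    have := congrArg (fun f => f o) hma
    simp at this
  obtain ⟨x₀, hx₀⟩ := Finsupp.support_nonempty_iff.mpr hm0
  obtain ⟨g₀, rfl⟩ := htrans x₀
  have h1 : cl K (rho K g₀⁻¹ m) (Finsupp.mapDomain (fun g => g * g₀) a) = Finsupp.single o 1 := by
    rw [cl_translate, hma]
  have hval : (rho K g₀⁻¹ m) o = m (g₀ • o) := by
    have : (rho K g₀⁻¹ m) (g₀⁻¹ • g₀ • o) = m (g₀ • o) :=
      Finsupp.mapDomain_apply (MulAction.injective g₀⁻¹) m (g₀ • o)
    rwa [inv_smul_smul] at this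
  have h2 := monomial_aux K htrans h hcl hmax hH hphi _ _ h1 (by
    rw [Finsupp.mem_support_iff, hval]; exact Finsupp.mem_support_iff.mp hx₀)
  refine ⟨g₀, m (g₀ • o), Finsupp.mem_support_iff.mp hx₀, ?_⟩
  have h3 := congrArg (rho K g₀) h2
  rw [rho_rho_inv, hval, rho_single] at h3
  exact h3

end Free

end Pool.Agent.Lib.MP_eee65c_al
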