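import Mathlib

/-!
Ranks of free groups and homomorphisms to the rationals.
-/

namespace Pool.Agent.Lib.MP_eee65c_al

open Module

section Rank

/-- Homomorphism with prescribed values on finitely many basis elements. -/
noncomputable def homOf {L ι : Type*} [Group L] (b : FreeGroupBasis ι L) {n : ℕ}
    (e : Fin n ↪ ι) (x : Fin n → ℚ) : L →* Multiplicative ℚ :=
  (FreeGroup.lift (fun i => Multiplicative.ofAdd (Function.extend e x 0 i))).comp
    b.repr.toMonoidHom

lemma homOf_apply {L ι : Type*} [Group L] (b : FreeGroupBasis ι L) {n : ℕ}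
    (e : Fin n ↪ ι) (x : Fin n → ℚ) (i : ι) :
    homOf b e x (b i) = Multiplicative.ofAdd (Function.extend e x 0 i) := by
  simp [homOf]

lemma homOf_basis {L ι : Type*} [Group L] (b : FreeGroupBasis ι L) {n : ℕ}
    (e : Fin n ↪ ι) (x : Fin n → ℚ) (j : Fin n) :
    homOf b e x (b (e j)) = Multiplicative.ofAdd (x j) := by
  rw [homOf_apply, e.injective.extend_apply]

lemma homOf_add {L ι : Type*} [Group L] (b : FreeGroupBasis ι L) {n : ℕ}
    (e : Fin n ↪ ι) (x y : Fin n → ℚ) : homOf b e (x + y) = homOf b e x * homOf b e y := by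
  apply b.ext_hom
  intro i
  rw [MonoidHom.mul_apply, homOf_apply, homOf_apply, homOf_apply, ← ofAdd_add]
  congr 1
  by_cases hi : ∃ j, e j = i
  · obtain ⟨j, rfl⟩ := hi
    rw [e.injective.extend_apply, e.injective.extend_apply, e.injective.extend_apply,
      Pi.add_apply]
  · rw [Function.extend_apply' _ _ _ hi, Function.extend_apply' _ _ _ hi,
      Function.extend_apply' _ _ _ hi]
    simp

lemma exists_hom_rat {L ι : Type*} [Group L] (b : FreeGroupBasis ι L) {κ : Type*} [Fintype κ]
    (s : κ → L) (e : Fin (Fintype.card κ + 1) ↪ ι) :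
    ∃ φ : L →* Multiplicative ℚ, (∀ k, φ (s k) = 1) ∧ φ ≠ 1 := by
  classical
  let ψ' : (Fin (Fintype.card κ + 1) → ℚ) →+ (κ → ℚ) :=
    { toFun := fun x k => (homOf b e x (s k)).toAdd
      map_zero' := by
        ext k
        have h := homOf_add b e 0 0
        rw [add_zero] at h
        have h1 : homOf b e 0 = 1 := mul_eq_left.mp h.symm
        rw [h1]; rfl
      map_add' := by
        intro x y
        ext k
        rw [homOf_add]
        rfl }
  let ψ := ψ'.toRatLinearMap
  have hker : LinearMap.ker ψ ≠ ⊥ := by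
    apply LinearMap.ker_ne_bot_of_finrank_lt
    rw [Module.finrank_fintype_fun_eq_card, Module.finrank_fintype_fun_eq_card, Fintype.card_fin]
    omega
  obtain ⟨x, hx, hx0⟩ := (Submodule.ne_bot_iff _).mp hker
  refine ⟨homOf b e x, ?_, ?_⟩
  · intro k
    have h1 : ψ x = 0 := hx
    exact congrFun h1 k
  · intro h1
    apply hx0
    ext j
    have := homOf_basis b e x j
    rw [h1, MonoidHom.one_apply] at this
    exact (congrArg Multiplicative.toAdd this).symm

lemma emb_of_lt {ι : Type*} {n : ℕ} (h : (n : Cardinal) < Cardinal.mk ι) :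
    Nonempty (Fin (n + 1) ↪ ι) := by
  rw [← Cardinal.lift_mk_le']
  have h1 : ((n + 1 : ℕ) : Cardinal) ≤ Cardinal.mk ι := by
    rw [Nat.cast_succ, ← Cardinal.succ_natCast]
    exact Order.succ_le_of_lt h
  simpa using h1

/-- A free group with a generating set of size `n` has rank at most `n`. -/
lemma rank_le {L ι : Type*} [Group L] (b : FreeGroupBasis ι L) {κ : Type*} [Fintype κ]
    (s : κ → L) (hs : Subgroup.closure (Set.range s) = ⊤) :
    Cardinal.mk ι ≤ Fintype.card κ := by
  by_contra hcon
  rw [not_le] at hcon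
  obtain ⟨e⟩ := emb_of_lt hcon
  obtain ⟨φ, hφ, hφ1⟩ := exists_hom_rat b s e
  apply hφ1
  have : φ.ker = ⊤ := by
    rw [eq_top_iff, ← hs, Subgroup.closure_le]
    rintro _ ⟨k, rfl⟩
    exact hφ k
  ext g
  have hg : g ∈ φ.ker := by rw [this]; exact Subgroup.mem_top g
  rw [MonoidHom.mem_ker.mp hg, MonoidHom.one_apply]

lemma closure_basis {L ι : Type*} [Group L] (b : FreeGroupBasis ι L) :
    Subgroup.closure (Set.range b) = ⊤ := by
  have h1 : Set.range b = b.repr.symm.toMonoidHom '' Set.range (FreeGroup.of (α := ι)) := by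
    rw [← Set.range_comp]; rfl
  rw [h1, ← MonoidHom.map_closure, FreeGroup.closure_range_of, ← MonoidHom.range_eq_map,
    MonoidHom.range_eq_top]
  exact b.repr.symm.surjective

end Rank

end Pool.Agent.Lib.MP_eee65c_al
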