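import Pool.Agent.Lib.MP_eee65c_al.Local

/-!
Torsion-freeness of the augmentation part of `K[X]`.
-/

namespace Pool.Agent.Lib.MP_eee65c_al

open Finset Module

lemma rank_nullity_map {K V W : Type*} [Field K] [AddCommGroup V] [Module K V] [AddCommGroup W]
    [Module K W] (f : V →ₗ[K] W) (p : Submodule K V) [FiniteDimensional K p] :
    finrank K (p.map f) + finrank K (LinearMap.ker f ⊓ p : Submodule K V) = finrank K p := by
  have h1 := LinearMap.finrank_range_add_finrank_ker (f ∘ₗ p.subtype)
  rw [LinearMap.range_comp, Submodule.range_subtype, LinearMap.ker_comp] at h1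
  rw [← h1, ← Submodule.finrank_map_subtype_eq, Submodule.map_comap_subtype, inf_comm]

section CL

variable (K : Type*) [Field K] {G : Type*} [Group G] {X : Type*} [MulAction G X]

/-- Convolution with a fixed element. -/
noncomputable def cl (m : X →₀ K) : (G →₀ K) →ₗ[K] (X →₀ K) :=
  Finsupp.linearCombination K (fun g => rho K g m)

@[simp] lemma cl_single (m : X →₀ K) (g : G) (c : K) :
    cl K m (Finsupp.single g c) = c • rho K g m := by
  simp [cl]

lemma cl_rho (m : X →₀ K) (g : G) (a : G →₀ K) : cl K m (rho K g a) = rho K g (cl K m a) := by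
  have : (cl K m).comp (rho K g : (G →₀ K) →ₗ[K] (G →₀ K)) =
      (rho K g : (X →₀ K) →ₗ[K] (X →₀ K)).comp (cl K m) := by
    ext h
    simp
  exact LinearMap.congr_fun this a

lemma map_cl_le (m : X →₀ K) (S : Set G) (W : Submodule K (X →₀ K))
    (h : ∀ g ∈ S, rho K g m ∈ W) : (Finsupp.supported K K S).map (cl K m) ≤ W := by
  rw [Finsupp.supported_eq_span_single, Submodule.map_span, Submodule.span_le]
  rintro _ ⟨_, ⟨g, hg, rfl⟩, rfl⟩
  simpa using h g hg

lemma finrank_map_cl (m : X →₀ K) (S : Finset G) :
    finrank K ((Finsupp.supported K K (S : Set G)).map (cl K m)) +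
      finrank K (LinearMap.ker (cl K m) ⊓ Finsupp.supported K K (S : Set G) :
        Submodule K (G →₀ K)) = S.card := by
  rw [rank_nullity_map, finrank_supported]

end CL

section TF

set_option linter.unusedSectionVars false

variable (K : Type*) [Field K] {α : Type*} [Fintype α] [DecidableEq α] {X : Type*} [DecidableEq X]
  [MulAction (FreeGroup α) X]

/-- No bad families. -/
lemma no_family {T : Finset X} {o : X} (ho : o ∈ T)
    (hconn : ∀ x ∈ T, ∃ g : FreeGroup α, Reach T o g ∧ g • o = x)
    {ι : Type*} [Fintype ι] (h : ι → FreeGroup α) (hreach : ∀ j, Reach T o (h j))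
    (hcl : Subgroup.closure (Set.range h) = MulAction.stabilizer (FreeGroup α) o)
    (hmax : ∀ S : Finset (FreeGroup α), MulAction.stabilizer (FreeGroup α) o <
      Subgroup.closure (S : Set (FreeGroup α)) → Fintype.card ι + 1 ≤ S.card) :
    ∀ (n : ℕ) (V : Submodule K (X →₀ K)) (Vs : α → Submodule K (X →₀ K)),
      V ≤ Finsupp.supported K K (T : Set X) → (∀ v ∈ V, aug K v = 0) → (∀ s, Vs s ≤ V) →
      (∀ s, Vs s ≤ Finsupp.supported K K (TS T s : Set X)) →
      (∀ s, ∀ v ∈ Vs s, rho K (FreeGroup.of s) v ∈ V) → V ≠ ⊥ →
      finrank K V ≤ ∑ s, finrank K (Vs s) →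
      Fintype.card α * T.card < ∑ s, finrank K (Vs s) + n → False := by
  classical
  intro n
  induction n with
  | zero =>
    intro V Vs hVT hV0 hVsV hVsT hact hne hle hlt
    have h1 : ∀ s, finrank K (Vs s) ≤ T.card := by
      intro s
      have := Submodule.finrank_mono ((hVsV s).trans hVT)
      rwa [finrank_supported] at this
    have h2 := sum_le_sum (fun s (_ : s ∈ (univ : Finset α)) => h1 s)
    rw [sum_const, card_univ, smul_eq_mul] at h2
    omega
  | succ n ih =>
    intro V Vs hVT hV0 hVsV hVsT hact hne hle hlt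
    have hVfd : FiniteDimensional K V := finite_of_le K hVT
    have hTS : ∀ s : α, ((TS T s : Finset X) : Set X) ⊆ (T : Set X) := by
      intro s x hx
      exact (mem_TS.mp (mem_coe.mp hx)).1
    by_cases hclosed : ∀ s : α, ∀ v ∈ Finsupp.supported K K (TS T s : Set X),
        (v ∈ V ∨ rho K (FreeGroup.of s) v ∈ V) → v ∈ Vs s
    · have e : ∀ s, Vs s = V ⊓ Finsupp.supported K K (TS T s : Set X) := by
        intro s
        apply le_antisymm (le_inf (hVsV s) (hVsT s))
        rintro v ⟨hv1, hv2⟩
        exact hclosed s v hv2 (Or.inl hv1)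
      have hs1 := s1 K ho hconn h hreach hcl hmax V hVT
        (fun x _ hx => by have := hV0 _ hx; simp at this)
        (fun s v hv => ⟨fun hvV => hact s v (hclosed s v hv (Or.inl hvV)),
          fun hvV => hVsV s (hclosed s v hv (Or.inr hvV))⟩) hne
      have e2 : ∑ s, finrank K (Vs s) = ∑ s : α, finrank K (V ⊓ Finsupp.supported K K
          (TS T s : Set X) : Submodule K (X →₀ K)) := sum_congr rfl (fun s _ => by rw [← e s])
      omega
    · push Not at hclosed
      obtain ⟨s₀, v, hvT, hvor, hvn⟩ := hclosed
      have hv0 : aug K v = 0 := by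
        rcases hvor with h1 | h1
        · exact hV0 _ h1
        · rw [← aug_rho K (FreeGroup.of s₀)]; exact hV0 _ h1
      have hvTT : v ∈ Finsupp.supported K K (T : Set X) := Finsupp.supported_mono (hTS s₀) hvT
      have hrvT : rho K (FreeGroup.of s₀) v ∈ Finsupp.supported K K (T : Set X) :=
        rho_mem_supported K _ (fun x hx => mem_coe.mpr (mem_TS.mp (mem_coe.mp hx)).2) hvT
      obtain ⟨w, hwT, hw0, hvw, hrw⟩ : ∃ w : X →₀ K, w ∈ Finsupp.supported K K (T : Set X) ∧
          aug K w = 0 ∧ v ∈ V ⊔ Submodule.span K {w} ∧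
          rho K (FreeGroup.of s₀) v ∈ V ⊔ Submodule.span K {w} := by
        rcases hvor with h1 | h1
        · refine ⟨rho K (FreeGroup.of s₀) v, hrvT, ?_, Submodule.mem_sup_left h1,
            Submodule.mem_sup_right (Submodule.mem_span_singleton_self _)⟩
          rw [aug_rho]; exact hv0
        · exact ⟨v, hvTT, hv0, Submodule.mem_sup_right (Submodule.mem_span_singleton_self _),
            Submodule.mem_sup_left h1⟩
      set V' := V ⊔ Submodule.span K {w} with hV'
      set Vs' : α → Submodule K (X →₀ K) :=
        Function.update Vs s₀ (Vs s₀ ⊔ Submodule.span K {v}) with hVs'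
      have hupd : ∀ s, s ≠ s₀ → Vs' s = Vs s := fun s hs => Function.update_of_ne hs _ _
      have hupd0 : Vs' s₀ = Vs s₀ ⊔ Submodule.span K {v} := Function.update_self _ _ _
      have hsfd : ∀ s, FiniteDimensional K (Vs s) := fun s => finite_of_le K ((hVsV s).trans hVT)
      have hsum : ∑ s, finrank K (Vs s) + 1 ≤ ∑ s, finrank K (Vs' s) := by
        rw [← add_sum_erase _ _ (mem_univ s₀), ← add_sum_erase _ _ (mem_univ s₀)]
        have e1 : ∑ s ∈ univ.erase s₀, finrank K (Vs' s) =
            ∑ s ∈ univ.erase s₀, finrank K (Vs s) :=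
          sum_congr rfl (fun s hs => by rw [hupd s (ne_of_mem_erase hs)])
        rw [e1]
        have e2 : finrank K (Vs s₀) < finrank K (Vs' s₀) := by
          rw [hupd0]
          apply Submodule.finrank_lt_finrank_of_lt
          refine lt_of_le_of_ne le_sup_left ?_
          intro heq
          apply hvn
          rw [heq]
          exact Submodule.mem_sup_right (Submodule.mem_span_singleton_self _)
        omega
      have hVd : finrank K V' ≤ finrank K V + 1 := by
        have h1 : finrank K V' ≤ finrank K V + finrank K (Submodule.span K {w}) :=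
          Submodule.finrank_add_le_finrank_add_finrank V (Submodule.span K {w})
        have h2 : finrank K (Submodule.span K {w} : Submodule K (X →₀ K)) ≤ 1 := by
          have := finrank_span_le_card (R := K) ({w} : Set (X →₀ K))
          simpa using this
        omega
      refine ih V' Vs' ?_ ?_ ?_ ?_ ?_ ?_ ?_ ?_
      · refine sup_le hVT ?_
        rw [Submodule.span_singleton_le_iff_mem]; exact hwT
      · intro u hu
        obtain ⟨a, ha, b, hb, rfl⟩ := Submodule.mem_sup.mp hu
        obtain ⟨c, rfl⟩ := Submodule.mem_span_singleton.mp hb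
        rw [map_add, map_smul, hV0 a ha, hw0]; simp
      · intro s
        by_cases hs : s = s₀
        · rw [hs, hupd0]
          refine sup_le ((hVsV s₀).trans le_sup_left) ?_
          rw [Submodule.span_singleton_le_iff_mem]; exact hvw
        · rw [hupd s hs]; exact (hVsV s).trans le_sup_left
      · intro s
        by_cases hs : s = s₀
        · rw [hs, hupd0]
          refine sup_le (hVsT s₀) ?_
          rw [Submodule.span_singleton_le_iff_mem]; exact hvT
        · rw [hupd s hs]; exact hVsT s
      · intro s u hu
        by_cases hs : s = s₀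
        · rw [hs, hupd0] at hu
          obtain ⟨a, ha, b, hb, rfl⟩ := Submodule.mem_sup.mp hu
          obtain ⟨c, rfl⟩ := Submodule.mem_span_singleton.mp hb
          rw [hs, map_add, map_smul]
          exact Submodule.add_mem _ (Submodule.mem_sup_left (hact s₀ a ha))
            (Submodule.smul_mem _ _ hrw)
        · rw [hupd s hs] at hu
          exact Submodule.mem_sup_left (hact s u hu)
      · intro hbot
        apply hne
        rw [eq_bot_iff] at hbot ⊢
        exact le_sup_left.trans hbot
      · omega
      · omega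

/-- Torsion-freeness. -/
theorem torsion_free {o : X} (htrans : ∀ x : X, ∃ g : FreeGroup α, g • o = x)
    {ι : Type*} [Fintype ι] (h : ι → FreeGroup α)
    (hcl : Subgroup.closure (Set.range h) = MulAction.stabilizer (FreeGroup α) o)
    (hmax : ∀ S : Finset (FreeGroup α), MulAction.stabilizer (FreeGroup α) o <
      Subgroup.closure (S : Set (FreeGroup α)) → Fintype.card ι + 1 ≤ S.card)
    (m : X →₀ K) (hm0 : aug K m = 0) (a : FreeGroup α →₀ K) (ha : a ≠ 0)
    (ham : cl K m a = 0) : m = 0 := by
  classical
  by_contra hm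
  choose p hp using htrans
  obtain ⟨B, h1B, hBconn, hBa⟩ := exists_good (1 : FreeGroup α) a.support
  have haB : a ∈ Finsupp.supported K K (B : Set (FreeGroup α)) := by
    rw [Finsupp.mem_supported]
    intro g hg
    have := (hBa g hg).mem
    simpa using this
  obtain ⟨T, hoT, hTconn, hTr⟩ := exists_good o
    ((B ×ˢ m.support).image (fun q => q.1 * p q.2) ∪ univ.image h)
  have hTreach : ∀ j, Reach T o (h j) := fun j => hTr _ (mem_union_right _
    (mem_image_of_mem _ (mem_univ j)))
  have hTB : ∀ b ∈ B, ∀ x ∈ m.support, b • x ∈ T := by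
    intro b hb x hx
    have := (hTr (b * p x) (mem_union_left _ (mem_image.mpr ⟨(b, x), mem_product.mpr ⟨hb, hx⟩,
      rfl⟩))).mem
    rwa [mul_smul, hp] at this
  -- the local inequality for the annihilator
  have hstab : MulAction.stabilizer (FreeGroup α) (1 : FreeGroup α) = ⊥ := by
    rw [eq_bot_iff]
    intro g hg
    rw [MulAction.mem_stabilizer_iff, smul_eq_mul, mul_one] at hg
    rw [hg]; exact Subgroup.one_mem _
  set W : Submodule K (FreeGroup α →₀ K) := LinearMap.ker (cl K m) ⊓
    Finsupp.supported K K (B : Set (FreeGroup α)) with hW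
  have hTSB : ∀ s : α, ((TS B s : Finset (FreeGroup α)) : Set (FreeGroup α)) ⊆ B := by
    intro s x hx
    exact (mem_TS.mp (mem_coe.mp hx)).1
  have hrB : ∀ s : α, ∀ v ∈ Finsupp.supported K K (TS B s : Set (FreeGroup α)),
      rho K (FreeGroup.of s) v ∈ Finsupp.supported K K (B : Set (FreeGroup α)) := fun s v hv =>
    rho_mem_supported K _ (fun x hx => mem_coe.mpr (mem_TS.mp (mem_coe.mp hx)).2) hv
  have hs1 := s1 K h1B hBconn (ι := Empty) Empty.elim (fun j => j.elim)
    (by rw [hstab, Set.range_eq_empty, Subgroup.closure_empty])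
    (by
      intro S hS
      rw [hstab] at hS
      rw [Fintype.card_empty]
      by_contra hcon
      have : S = ∅ := by
        rw [← card_eq_zero]; omega
      rw [this, coe_empty, Subgroup.closure_empty] at hS
      exact lt_irrefl _ hS)
    W inf_le_right
    (by
      intro x _ hx
      have h1 := hx.1
      rw [SetLike.mem_coe, LinearMap.mem_ker, cl_single, one_smul] at h1
      apply hm
      apply rho_injective K x
      rw [h1, map_zero])
    (by
      intro s v hv
      have hvB : v ∈ Finsupp.supported K K (B : Set (FreeGroup α)) :=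
        Finsupp.supported_mono (hTSB s) hv
      rw [hW, Submodule.mem_inf, Submodule.mem_inf, LinearMap.mem_ker, LinearMap.mem_ker, cl_rho]
      constructor
      · rintro ⟨h1, _⟩
        exact ⟨by rw [h1, map_zero], hrB s v hv⟩
      · rintro ⟨h1, _⟩
        refine ⟨?_, hvB⟩
        apply rho_injective K (FreeGroup.of s)
        rw [h1, map_zero])
    (by
      intro hbot
      have : a ∈ W := ⟨ham, haB⟩
      rw [hbot, Submodule.mem_bot] at this
      exact ha this)
  have eW : ∀ s : α, (W ⊓ Finsupp.supported K K (TS B s : Set (FreeGroup α)) :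
      Submodule K (FreeGroup α →₀ K)) = LinearMap.ker (cl K m) ⊓
        Finsupp.supported K K (TS B s : Set (FreeGroup α)) := by
    intro s
    rw [hW, inf_assoc, inf_eq_right.mpr (Finsupp.supported_mono (hTSB s))]
  rw [sum_congr rfl (fun s _ => by rw [eW s])] at hs1
  set V := (Finsupp.supported K K (B : Set (FreeGroup α))).map (cl K m) with hV
  set Vs : α → Submodule K (X →₀ K) := fun s =>
    (Finsupp.supported K K (TS B s : Set (FreeGroup α))).map (cl K m) with hVs
  have hdV := finrank_map_cl K m B
  have hdVs : ∑ s : α, finrank K (Vs s) + ∑ s : α, finrank K (LinearMap.ker (cl K m) ⊓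
      Finsupp.supported K K (TS B s : Set (FreeGroup α)) : Submodule K (FreeGroup α →₀ K)) =
      ∑ s : α, (TS B s).card := by
    rw [← sum_add_distrib]
    exact sum_congr rfl (fun s _ => finrank_map_cl K m (TS B s))
  have hedges := card_le_edges (α := α) h1B hBconn
  have hle : finrank K V ≤ ∑ s, finrank K (Vs s) := by
    rw [← hW, ← hV] at hdV
    omega
  refine no_family K hoT hTconn h hTreach hcl hmax (Fintype.card α * T.card + 1) V Vs
    ?_ ?_ ?_ ?_ ?_ ?_ hle (by omega)
  · apply map_cl_le
    intro b hb
    refine rho_mem_supported K b (S := (m.support : Set X)) (fun x hx => ?_) ?_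
    · exact hTB b hb x hx
    · rw [Finsupp.mem_supported]
  · intro v hv
    have : V ≤ LinearMap.ker (aug K) := by
      apply map_cl_le
      intro b _
      rw [LinearMap.mem_ker, aug_rho, hm0]
    exact this hv
  · intro s
    exact Submodule.map_mono (Finsupp.supported_mono (hTSB s))
  · intro s
    apply map_cl_le
    intro b hb
    have hb' := mem_TS.mp (mem_coe.mp hb)
    refine rho_mem_supported K b (S := (m.support : Set X)) (fun x hx => ?_) ?_
    · rw [mem_coe, mem_TS]
      refine ⟨hTB b hb'.1 x hx, ?_⟩
      rw [← mul_smul]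
      exact hTB _ hb'.2 x hx
    · rw [Finsupp.mem_supported]
  · intro s v hv
    obtain ⟨u, hu, rfl⟩ := hv
    exact ⟨rho K (FreeGroup.of s) u, hrB s u hu, cl_rho K m _ u⟩
  · intro hbot
    apply hm
    have : m ∈ V := by
      refine ⟨Finsupp.single 1 1, ?_, ?_⟩
      · rw [SetLike.mem_coe, Finsupp.mem_supported]
        refine (Finset.coe_subset.mpr Finsupp.support_single_subset).trans ?_
        simpa using h1B
      · simp
    rw [hbot, Submodule.mem_bot] at this
    exact this

end TF

end Pool.Agent.Lib.MP_eee65c_al
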